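import Pool.Agent.H942.DP.Fold

set_option autoImplicit false

/-! The Kummer cover `h = T ^ n + x_{n-1} T ^ (n-1) + ⋯ + x_1 T + κ x_0 ^ e` of the space of monic
polynomials and the weight function on it. -/

namespace Pool.Agent.H942.DP.KQ

open MeasureTheory Metric Set Polynomial Topology Filter

section Ring

variable {R : Type*} [CommRing R] {n : ℕ}

/-- The coefficients of the polynomial. -/
def kx (κ : R) (e : ℕ) (x : Fin n → R) : Fin n → R :=
  fun i => if (i : ℕ) = 0 then κ * x i ^ e else x i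

/-- The coordinate with index `0` (and `1` for `n = 0`). -/
noncomputable def c0 (x : Fin n → R) : R := (mp x).coeff 0

theorem c0_eq (hn : 0 < n) (x : Fin n → R) : c0 x = x ⟨0, hn⟩ := mp_coeff x ⟨0, hn⟩

theorem kx_zero (hn : 0 < n) (κ : R) (e : ℕ) (x : Fin n → R) :
    kx κ e x ⟨0, hn⟩ = κ * x ⟨0, hn⟩ ^ e := by
  rw [kx, if_pos rfl]

theorem kx_of_ne (κ : R) (e : ℕ) (x : Fin n → R) {i : Fin n} (hi : (i : ℕ) ≠ 0) :
    kx κ e x i = x i := by
  rw [kx, if_neg hi]

theorem c0_kx (hn : 0 < n) (κ : R) (e : ℕ) (x : Fin n → R) :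
    c0 (kx κ e x) = κ * c0 x ^ e := by
  rw [c0_eq hn, c0_eq hn, kx_zero]

/-- The coordinate with index `0` is replaced by `0`. -/
def k0 (x : Fin n → R) : Fin n → R := fun i => if (i : ℕ) = 0 then 0 else x i

theorem k0_of_ne (x : Fin n → R) {i : Fin n} (hi : (i : ℕ) ≠ 0) : k0 x i = x i := by
  rw [k0, if_neg hi]

theorem k0_eq {x : Fin n → R} (h : ∀ i : Fin n, (i : ℕ) = 0 → x i = 0) : k0 x = x := by
  funext i
  rw [k0]
  split_ifs with hi
  · exact (h i hi).symm
  · rfl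

theorem lp_kx (hn : 0 < n) (κ : R) (e : ℕ) (x : Fin n → R) :
    lp (kx κ e x) = lp (k0 x) + C (κ * c0 x ^ e) := by
  have h1 : kx κ e x = k0 x + fun i : Fin n => if (i : ℕ) = 0 then κ * x i ^ e else 0 := by
    funext i
    simp only [kx, k0, Pi.add_apply]
    split_ifs <;> simp
  have h2 : ∀ u v : Fin n → R, lp (u + v) = lp u + lp v := by
    intro u v
    simp only [lp, Pi.add_apply, C_add, add_mul, Finset.sum_add_distrib]
  rw [h1, h2]
  congr 1
  rw [lp, Finset.sum_eq_single ⟨0, hn⟩]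
  · rw [if_pos rfl, c0_eq hn]
    simp
  · intro i _ hi
    rw [if_neg, C_0, zero_mul]
    intro h
    exact hi (Fin.ext h)
  · intro h
    exact absurd (Finset.mem_univ _) h

theorem mp_kx_eval (hn : 0 < n) (κ : R) (e : ℕ) (x : Fin n → R) (t : R) :
    (mp (kx κ e x)).eval t = t ^ n + (lp (k0 x)).eval t + κ * c0 x ^ e := by
  rw [mp_eval, lp_kx hn, eval_add, eval_C]
  ring

theorem eval_zero_eq (x : Fin n → R) : (mp x).eval 0 = c0 x := by
  rw [c0, coeff_zero_eq_eval_zero]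

theorem c0_mul {m l : ℕ} {z : Fin n → R} {x : Fin m → R} {y : Fin l → R} (h : mp z = mp x * mp y) :
    c0 z = c0 x * c0 y := by
  rw [c0, h, mul_coeff_zero]
  rfl

end Ring

variable {p : ℕ} [hp : Fact p.Prime] {K : IntermediateField ℚ_[p] (PadicAlgCl p)} {n : ℕ}

theorem continuous_kx (κ : K) (e : ℕ) : Continuous (kx κ e : (Fin n → K) → (Fin n → K)) := by
  refine continuous_pi fun i => ?_
  unfold kx
  split_ifs
  · exact continuous_const.mul ((continuous_apply i).pow e)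
  · exact continuous_apply i

theorem continuous_c0 : Continuous (c0 : (Fin n → K) → K) := by
  unfold c0
  simp only [mp_coeff']
  refine continuous_const.add ?_
  split_ifs with h
  · exact continuous_apply _
  · exact continuous_const

/-- The integral points. -/
def OK (κ : K) (e n : ℕ) : Set (Fin n → K) := closedBall 0 1 ∩ kx κ e ⁻¹' closedBall 0 1

theorem OK_sub (κ : K) (e n : ℕ) : OK κ e n ⊆ closedBall 0 1 := inter_subset_left

theorem OK_kx {κ : K} {e n : ℕ} {x : Fin n → K} (hx : x ∈ OK κ e n) :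
    kx κ e x ∈ closedBall (0 : Fin n → K) 1 := hx.2

theorem isOpen_OK (κ : K) (e n : ℕ) : IsOpen (OK κ e n) :=
  (IsUltrametricDist.isOpen_closedBall _ one_ne_zero).inter
    ((IsUltrametricDist.isOpen_closedBall _ one_ne_zero).preimage (continuous_kx κ e))

theorem ko_OK [FiniteDimensional ℚ_[p] K] (κ : K) (e n : ℕ) : KO (OK κ e n) :=
  ⟨(isCompact_closedBall _ _).inter_right (isClosed_closedBall.preimage (continuous_kx κ e)),
    isOpen_OK κ e n⟩

theorem norm_c0_le {x : Fin n → K} (hx : x ∈ closedBall (0 : Fin n → K) 1) : ‖c0 x‖ ≤ 1 := by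
  have h1 := int1_up.mpr hx 0
  rw [up_eq, coeff_map] at h1
  exact h1

/-- The weight. -/
noncomputable def wq (a b e : ℕ) (K : IntermediateField ℚ_[p] (PadicAlgCl p)) (κ : K) (n : ℕ)
    (H : (PadicAlgCl p)[X]) (x : Fin n → K) : ℝ :=
  wt a K n H (kx κ e x) * ‖c0 x‖ ^ (b * Module.finrank ℚ_[p] K)

theorem continuous_wq (a b e : ℕ) (κ : K) (H : (PadicAlgCl p)[X]) :
    Continuous (wq a b e K κ n H) := by
  unfold wq
  exact ((continuous_wt a K n H).comp (continuous_kx κ e)).mul ((continuous_c0.norm).pow _)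

omit hp in
theorem adm_mul {E : Type*} [NormedAddCommGroup E] {w1 w2 : E → ℝ} {V : Set E}
    (h1 : Adm p w1 V) (h2 : Adm p w2 V) : Adm p (fun x => w1 x * w2 x) V := by
  refine ⟨h1.1.mul h2.1, fun x hx => ?_⟩
  rcases h1.2 x hx with h | ⟨i, hi⟩
  · left
    simp only [h, zero_mul]
  rcases h2.2 x hx with h | ⟨j, hj⟩
  · left
    simp only [h, mul_zero]
  right
  refine ⟨i + j, ?_⟩
  simp only [hi, hj, pow_add, mul_inv]

variable [FiniteDimensional ℚ_[p] K]

theorem adm_c0 (b : ℕ) :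
    Adm p (fun x : Fin n → K => ‖c0 x‖ ^ (b * Module.finrank ℚ_[p] K)) (closedBall 0 1) := by
  refine ⟨(continuous_c0.norm).pow _, fun x hx => ?_⟩
  have h1 : ‖c0 x‖ ^ (b * Module.finrank ℚ_[p] K) = ‖c0 x ^ b‖ ^ Module.finrank ℚ_[p] K := by
    rw [norm_pow, pow_mul]
  simp only [h1]
  refine norm_pow_finrank_eq _ ?_
  rw [norm_pow]
  exact pow_le_one₀ (norm_nonneg _) (norm_c0_le hx)

theorem adm_wtk (a e : ℕ) (κ : K) (P : ℤ[X]) :
    Adm p (fun x : Fin n → K => wt a K n (toOm p P) (kx κ e x)) (OK κ e n) :=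
  ⟨(continuous_wt a K n _).comp (continuous_kx κ e), fun x hx => (adm_wt a K n P).2 _ hx.2⟩

theorem adm_wq (a b e : ℕ) (κ : K) (P : ℤ[X]) :
    Adm p (wq a b e K κ n (toOm p P)) (OK κ e n) :=
  adm_mul (adm_wtk a e κ P) ((adm_c0 b).mono (OK_sub κ e n))

/-- The series of all compact open sets of integral points are rational. -/
def GoodQ (p : ℕ) [Fact p.Prime] (A : ℕ → ℕ → Prop) (a b e : ℕ) (P : ℤ[X]) (n : ℕ) : Prop :=
  ∀ (K : IntermediateField ℚ_[p] (PadicAlgCl p)) [FiniteDimensional ℚ_[p] K] (κ : K), κ ≠ 0 →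
    ∀ V : Set (Fin n → K), V ⊆ OK κ e n → KO V → Rat p A (ser p (wq a b e K κ n (toOm p P)) V)

end Pool.Agent.H942.DP.KQ
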