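import Pool.Agent.H942.KQ.Basic

set_option autoImplicit false

/-! Charts. -/

namespace Pool.Agent.H942.DP.KQ

open MeasureTheory Metric Set Polynomial Topology Filter

section Pull

variable {k : Type*} [NontriviallyNormedField k] {E F : Type*} [NormedAddCommGroup E]
  [NormedSpace k E] [IsUltrametricDist E] [ProperSpace E] [MeasurableSpace E] [BorelSpace E]
  [NormedAddCommGroup F] [NormedSpace k F] [ProperSpace F]
  [MeasurableSpace F] [BorelSpace F] {p : ℕ} {A : ℕ → ℕ → Prop}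

/-- A chart to a space where the series are rational. -/
theorem lg_pull (hp : 1 < p) {φ : E → F} {B : E ≃L[k] F} {x0 : E}
    (h : HasStrictFDerivAt φ (B : E →L[k] F) x0) {w : E → ℝ} {w' : F → ℝ} {κ : ℝ} (hκ : 0 < κ)
    (hκ1 : κ ≤ 1) {U : Set E} (hU : U ∈ 𝓝 x0) {O : Set F} (hφU : ∀ x ∈ U, φ x ∈ O)
    (hw : ∀ x ∈ U, w x = κ * w' (φ x)) (hadm : Adm p w U) (hw' : Adm p (fun x => w' (φ x)) U)
    (hR : ∀ V ⊆ O, KO V → Rat p A (ser p w' V)) : LG p A w x0 := by
  obtain ⟨r, hr, c, hinj, hcont, hV⟩ := ift h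
  obtain ⟨r1, hr1, h1⟩ := Metric.nhds_basis_closedBall.mem_iff.mp hU
  refine ⟨min r r1, lt_min hr hr1, fun s hs hs1 => ?_⟩
  have hsr : closedBall x0 s ⊆ closedBall x0 r :=
    closedBall_subset_closedBall (hs1.trans (min_le_left _ _))
  have hsU : closedBall x0 s ⊆ U :=
    (closedBall_subset_closedBall (hs1.trans (min_le_right _ _))).trans h1
  have hK : KO (closedBall x0 s) := ko_ball x0 hs
  obtain ⟨h2, h3⟩ := hV _ hsr hK
  have hc : c ≠ 0 := by
    rintro rfl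
    rw [zero_mul] at h3
    exact (vol_pos h2 ⟨φ x0, x0, mem_closedBall_self hs.le, rfl⟩).ne' h3
  have h4 : ser p w' (φ '' closedBall x0 s) =
      PowerSeries.C c * ser p (fun x => w' (φ x)) (closedBall x0 s) :=
    ser_image hp hK (hw'.mono hsU) (fun W hW hWK => (hV W (hW.trans hsr) hWK).2)
      (fun x _ => rfl)
  have h5 : ser p (fun x => w' (φ x)) (closedBall x0 s) =
      PowerSeries.C c⁻¹ * ser p w' (φ '' closedBall x0 s) := by
    rw [h4, ← mul_assoc, ← map_mul, inv_mul_cancel₀ hc, map_one, one_mul]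
  obtain ⟨j, hj⟩ := ser_const_mul hp (hadm.mono hsU) (hw'.mono hsU) hκ hκ1
    (fun x hx => hw x (hsU hx))
  rw [hj, h5]
  refine (rat_X_pow j).mul ((rat_C _).mul (hR _ ?_ h2))
  rintro _ ⟨x, hx, rfl⟩
  exact hφU x (hsU hx)

end Pull

section Gen

variable {p : ℕ} [hp : Fact p.Prime] {A : ℕ → ℕ → Prop}
  {E F F' : Type*} [NormedAddCommGroup E]
  [NormedSpace ℚ_[p] E] [FiniteDimensional ℚ_[p] E] [IsUltrametricDist E] [ProperSpace E]
  [MeasurableSpace E] [BorelSpace E]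
  [NormedAddCommGroup F]
  [NormedSpace ℚ_[p] F] [FiniteDimensional ℚ_[p] F] [IsUltrametricDist F] [ProperSpace F]
  [MeasurableSpace F] [BorelSpace F]
  [NormedAddCommGroup F']
  [NormedSpace ℚ_[p] F'] [FiniteDimensional ℚ_[p] F']

omit [FiniteDimensional ℚ_[p] F] in
/-- A chart given by the values. -/
theorem lg_gen (L : F ≃L[ℚ_[p]] F') (t : F') {v : E → F'} {v' : E →L[ℚ_[p]] F'} {x0 : E}
    (hv : HasStrictFDerivAt v v' x0) (hinj : ∀ h, v' h = 0 → h = 0)
    (hdim : Module.finrank ℚ_[p] E = Module.finrank ℚ_[p] F') {z0 : F}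
    (hz0 : L z0 + t = v x0)
    {w : F → ℝ} {w' : E → ℝ} {κ : ℝ} (hκ : 0 < κ) (hκ1 : κ ≤ 1) {U : Set E}
    (hU : U ∈ 𝓝 x0) {O : Set F}
    (hw : ∀ x ∈ U, ∀ y : F, L y + t = v x → w y = κ * w' x ∧ y ∈ O)
    (hadm : Adm p w O) (hw' : Adm p w' U)
    (hR : ∀ V ⊆ U, KO V → Rat p A (ser p w' V)) : LG p A w z0 := by
  set φ : E → F := fun x => L.symm (v x - t) with hφ
  have hφv : ∀ x, L (φ x) + t = v x := by
    intro x
    rw [hφ]
    simp only [ContinuousLinearEquiv.apply_symm_apply, sub_add_cancel]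
  have hφ0 : φ x0 = z0 := by
    rw [hφ]
    simp only
    rw [← hz0, add_sub_cancel_right, ContinuousLinearEquiv.symm_apply_apply]
  have hinj' : Function.Injective (v' : E →ₗ[ℚ_[p]] F') := by
    rw [← LinearMap.ker_eq_bot, LinearMap.ker_eq_bot']
    exact fun h hh => hinj h hh
  let B0 : E ≃L[ℚ_[p]] F' :=
    (LinearEquiv.ofInjectiveOfFinrankEq (v' : E →ₗ[ℚ_[p]] F') hinj'
      hdim).toContinuousLinearEquiv
  have hB0 : (B0 : E →L[ℚ_[p]] F') = v' := by
    ext x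
    rfl
  have hd : HasStrictFDerivAt φ ((B0.trans L.symm : E ≃L[ℚ_[p]] F) :
      E →L[ℚ_[p]] F) x0 := by
    have h1 := (L.symm : F' →L[ℚ_[p]] F).hasStrictFDerivAt.comp x0 (hv.sub_const t)
    have h2 : ((B0.trans L.symm : E ≃L[ℚ_[p]] F) :
      E →L[ℚ_[p]] F) = (L.symm : F' →L[ℚ_[p]] F) ∘L v' := by
      rw [← hB0]
      rfl
    rw [h2]
    exact h1
  rw [← hφ0]
  refine lg_chart hp.out.one_lt hd hκ hκ1 hU (fun x hx => (hw x hx (φ x) (hφv x)).1) ?_ hw' hR
  refine ⟨continuous_const.mul hw'.1, fun x hx => ?_⟩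
  obtain ⟨h1, h2⟩ := hw x hx (φ x) (hφv x)
  simp only
  rw [← h1]
  exact hadm.2 _ h2

end Gen

section Kx

variable {p : ℕ} [hp : Fact p.Prime]
  {K : IntermediateField ℚ_[p] (PadicAlgCl p)} [FiniteDimensional ℚ_[p] K] {n : ℕ}

/-- The derivative of `kx`. -/
noncomputable def kd (κ : K) (e : ℕ) (x h : Fin n → K) : Fin n → K :=
  fun i => if (i : ℕ) = 0 then κ * ((e : K) * x i ^ (e - 1)) * h i else h i

/-- The derivative of `kx`. -/
noncomputable def kdL (κ : K) (e : ℕ) (x : Fin n → K) : (Fin n → K) →L[ℚ_[p]] (Fin n → K) :=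
  ContinuousLinearMap.pi fun i => if (i : ℕ) = 0 then
    (κ * ((e : K) * x i ^ (e - 1))) • ContinuousLinearMap.proj (R := ℚ_[p]) (φ := fun _ => K) i
    else ContinuousLinearMap.proj (R := ℚ_[p]) (φ := fun _ => K) i

omit [FiniteDimensional ℚ_[p] K] in
theorem kdL_apply (κ : K) (e : ℕ) (x h : Fin n → K) : kdL κ e x h = kd κ e x h := by
  funext i
  rw [kdL, ContinuousLinearMap.pi_apply, kd]
  split_ifs <;> rfl

omit [FiniteDimensional ℚ_[p] K] in
theorem strict_kx (κ : K) (e : ℕ) (x : Fin n → K) :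
    HasStrictFDerivAt (kx κ e : (Fin n → K) → (Fin n → K)) (kdL κ e x) x := by
  rw [hasStrictFDerivAt_pi']
  intro i
  have hi : HasStrictFDerivAt (fun y : Fin n → K => y i)
      (ContinuousLinearMap.proj (R := ℚ_[p]) (φ := fun _ => K) i) x :=
    (ContinuousLinearMap.proj (R := ℚ_[p]) (φ := fun _ => K) i).hasStrictFDerivAt
  have e1 : (ContinuousLinearMap.proj i).comp (kdL κ e x) = if (i : ℕ) = 0 then
    (κ * ((e : K) * x i ^ (e - 1))) • ContinuousLinearMap.proj (R := ℚ_[p]) (φ := fun _ => K) i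
    else ContinuousLinearMap.proj (R := ℚ_[p]) (φ := fun _ => K) i := by
    ext h
    rfl
  rw [e1]
  unfold kx
  by_cases h0 : (i : ℕ) = 0
  · simp only [h0, if_true]
    have h2 := (hi.pow e).const_mul κ
    rw [smul_smul, nsmul_eq_mul] at h2
    exact h2
  · simp only [h0, if_false]
    exact hi

omit [FiniteDimensional ℚ_[p] K] in
theorem kdL_injective (hn : 0 < n) {κ : K} (hκ : κ ≠ 0) {e : ℕ} (he : 1 ≤ e) {x : Fin n → K}
    (hx : x ⟨0, hn⟩ ≠ 0) : Function.Injective (kdL κ e x : (Fin n → K) →ₗ[ℚ_[p]] (Fin n → K)) := by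
  rw [← LinearMap.ker_eq_bot, LinearMap.ker_eq_bot']
  intro h hh
  have h1 : kd κ e x h = 0 := by
    rw [← kdL_apply]
    exact hh
  funext i
  have h2 := congrFun h1 i
  rw [kd] at h2
  by_cases h0 : (i : ℕ) = 0
  · rw [if_pos h0] at h2
    have hi : i = ⟨0, hn⟩ := Fin.ext h0
    have he' : (e : K) ≠ 0 := by
      have : e ≠ 0 := by omega
      exact_mod_cast this
    have h3 : κ * ((e : K) * x i ^ (e - 1)) ≠ 0 := by
      rw [hi]
      exact mul_ne_zero hκ (mul_ne_zero he' (pow_ne_zero _ hx))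
    exact (mul_eq_zero.mp h2).resolve_left h3
  · rw [if_neg h0] at h2
    exact h2

end Kx

end Pool.Agent.H942.DP.KQ
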