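import Pool.Agent.H942.KQ.Link

set_option autoImplicit false

/-! The poles of the Poincaré series of the Kummer covers. -/

namespace Pool.Agent.H942.DP.KQ

open Polynomial
open Pool.Agent.K3h15.DM (IsDisc hz)
open Pool.Agent.H628R4.TP (IsBFunction)
open Pool.Agent.W206.CU (poincare IsPoleOfOrder)

theorem io_ne_zero {n e : ℕ} (he : 0 < e) (i0 : Fin n) {F : MvPolynomial (Fin n) ℂ} (hF : F ≠ 0) :
    Pool.Agent.H942.KC.io e i0 F ≠ 0 := by
  intro h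
  have h1 := Pool.Agent.H942.KC.pr_io (i0 := i0) he F
  rw [h, map_zero] at h1
  exact hF h1.symm

theorem polyK_ne_zero {n : ℕ} (hn : 0 < n) (a b : ℕ) {e : ℕ} (he : 0 < e) {κ : ℤ} (hκ : κ ≠ 0)
    {G : ℤ[X]} (hG : G.eval 0 ≠ 0) : polyK n hn a b e κ G ≠ 0 := by
  obtain ⟨Fd, hFd, -⟩ := Pool.Agent.K3h15.DM.disc_unique n
  obtain ⟨c, t, ht, r, z, β, hc, -, -, -, h, -⟩ := complex_kum hn a b he hκ hG hFd
  intro h0
  rw [h0, map_zero] at h
  have h1 : Pool.Agent.H942.KC.kum n hn e Fd a b r z β ≠ 0 := by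
    rw [Pool.Agent.H942.KC.kum]
    exact mul_ne_zero (mul_ne_zero (pow_ne_zero _
      (io_ne_zero he _ (disc_ne_zero hFd))) (pow_ne_zero _ (MvPolynomial.X_ne_zero _)))
      (Finset.prod_ne_zero_iff.mpr fun j _ => pow_ne_zero _
        (io_ne_zero he _ (hz_ne_zero _)))
  refine absurd h.symm (mul_ne_zero ?_ ?_)
  · rwa [Ne, MvPolynomial.C_eq_zero]
  · intro h2
    exact h1 ((sgE n ht).injective (by rw [h2, map_zero]))

/-- The allowed denominators. -/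
def AQ (a b e n0 : ℕ) (G : ℤ[X]) (ν N : ℕ) : Prop :=
  AA a n0 G ν N ∨ ∃ m, 1 ≤ m ∧ m ≤ n0 ∧ 0 < a * (e * (m - 1)) + b ∧
    ν * (2 * (a * (e * (m - 1)) + b)) = N * (e * (m - 1) + 2)

theorem two_se (n e : ℕ) : 2 * ∑ i : Fin n, se n e 1 i = 2 * n + e * (n * (n - 1)) := by
  rcases n with _ | n
  · simp
  · rw [Fin.sum_univ_succ]
    have h1 : ∀ i : Fin n, se (n + 1) e 1 i.succ = e * (n - (i : ℕ)) := by
      intro i
      rw [se, if_neg (by simp), one_mul, Fin.val_succ]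
      congr 1
      omega
    have h2 : se (n + 1) e 1 0 = n + 1 := by
      rw [se, if_pos (by simp), one_mul]
    rw [h2, Finset.sum_congr rfl fun i _ => h1 i, ← Finset.mul_sum, mul_add, mul_left_comm,
      two_sum n, Nat.add_sub_cancel]
    ring

theorem adm2_AQ {p : ℕ} [Fact p.Prime] {a b e n0 : ℕ} {G : ℤ[X]} (hG : G ≠ 0) :
    Adm2 p (AQ a b e n0 G) a n0 {b | ∃ r : PadicAlgCl p, b = (toOm p G).rootMultiplicity r} := by
  obtain ⟨h1, h2⟩ := adm2_AA (p := p) (a := a) (n0 := n0) hG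
  exact ⟨fun n hn hn0 K _ => Or.inl (h1 n hn hn0 K),
    fun n b hn hn0 hb hbs K _ => Or.inl (h2 n b hn hn0 hb hbs K)⟩

theorem admQ_AQ {p : ℕ} [Fact p.Prime] {a b e n0 : ℕ} {G : ℤ[X]} (n : ℕ) (hn : 1 ≤ n)
    (hn0 : n ≤ n0) (K : IntermediateField ℚ_[p] (PadicAlgCl p)) (hN : 0 < NQ K a b e n) :
    AQ a b e n0 G (Module.finrank ℚ_[p] K * ∑ i : Fin n, se n e 1 i) (NQ K a b e n) := by
  have h0 : NQ K a b e n = n * (a * (e * (n - 1)) + b) * Module.finrank ℚ_[p] K := by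
    rw [NQ]
    ring
  refine Or.inr ⟨n, hn, hn0, ?_, ?_⟩
  · rw [h0] at hN
    exact Nat.pos_of_mul_pos_left (Nat.pos_of_mul_pos_right hN)
  · rw [h0]
    have h1 := two_se n e
    calc Module.finrank ℚ_[p] K * (∑ i : Fin n, se n e 1 i) * (2 * (a * (e * (n - 1)) + b))
        = Module.finrank ℚ_[p] K * (2 * ∑ i : Fin n, se n e 1 i) * (a * (e * (n - 1)) + b) := by
          ring
      _ = n * (a * (e * (n - 1)) + b) * Module.finrank ℚ_[p] K * (e * (n - 1) + 2) := by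
          rw [h1]
          ring

theorem pole_listK {n a b e : ℕ} (hn : 0 < n) (ha : 1 ≤ a) (he : 2 ≤ e) {κ : ℤ} (hκ : κ ≠ 0)
    {G : ℤ[X]} (hG : G.eval 0 ≠ 0) {p : ℕ} (hp : p.Prime) {T₀ : ℂ} {μ : ℕ} (hμ : 0 < μ)
    (hT : IsPoleOfOrder (poincare p (polyK n hn a b e κ G)) T₀ μ) :
    (∃ m : ℕ, 2 ≤ m ∧ m ≤ n ∧
      -Real.log ‖T₀‖ / Real.log p = -(((m : ℝ) + 2) / (2 * a * m))) ∨
    (∃ (m : ℕ) (w : ℂ), 1 ≤ m ∧ m ≤ n ∧
      1 ≤ (G.map (Int.castRingHom ℂ)).rootMultiplicity w ∧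
      -Real.log ‖T₀‖ / Real.log p = -(((m : ℝ) + 1) /
        (2 * (a * ((m : ℝ) - 1) + (G.map (Int.castRingHom ℂ)).rootMultiplicity w)))) ∨
    ∃ m : ℕ, 1 ≤ m ∧ m ≤ n ∧ (2 ≤ m ∨ 1 ≤ b) ∧
      -Real.log ‖T₀‖ / Real.log p = -((e * ((m : ℝ) - 1) + 2) /
        (2 * (a * (e * ((m : ℝ) - 1)) + b))) := by
  have : Fact p.Prime := ⟨hp⟩
  have hG0 : G ≠ 0 := by
    rintro rfl
    exact hG eval_zero
  have hR := goodQ_all (p := p) (b := b) ha he hG (adm2_AQ hG0) (fun n hn hn0 K _ hN =>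
    admQ_AQ n hn hn0 K hN) n hn le_rfl (Qb p) (κ : Qb p) (by exact_mod_cast hκ)
    (OK (κ : Qb p) e n) (Set.Subset.refl _) (ko_OK _ e n)
  rw [OK_int] at hR
  obtain ⟨ν, N, hN, hA, hTN⟩ := pole_den (polyK_ne_zero hn a b (by omega) hκ hG)
    (wq_em hn a b e κ G) hR hμ hT
  rw [log_of_pow hN hTN]
  rcases hA with (⟨m, hm, hmn, h⟩ | ⟨m, w, hm, hmn, hw, h⟩) | ⟨m, hm, hmn, hpos, h⟩
  · left
    refine ⟨m, hm, hmn, ?_⟩
    rw [ratio hN (Nat.mul_pos (Nat.mul_pos two_pos ha) (by omega)) h]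
    push_cast
    rfl
  · right
    left
    refine ⟨m, w, hm, hmn, hw, ?_⟩
    rw [ratio hN (Nat.mul_pos two_pos (by omega)) h]
    push_cast [Nat.cast_sub hm]
    rfl
  · right
    right
    refine ⟨m, hm, hmn, ?_, ?_⟩
    · by_contra hcon
      have h1 : m = 1 := by omega
      have h2 : b = 0 := by omega
      rw [h1, h2] at hpos
      simp at hpos
    · rw [ratio hN (Nat.mul_pos two_pos hpos) h]
      push_cast [Nat.cast_sub hm]
      rfl

theorem pole_rootK {n a b e : ℕ} (hn : 0 < n) (ha : 1 ≤ a) (he : 2 ≤ e) {κ : ℤ} (hκ : κ ≠ 0)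
    {G : ℤ[X]} (hG : G.eval 0 ≠ 0) {p : ℕ} (hp : p.Prime) {T₀ : ℂ} {μ : ℕ} (hμ : 0 < μ)
    (hT : IsPoleOfOrder (poincare p (polyK n hn a b e κ G)) T₀ μ) {c : Polynomial ℂ}
    (hb : IsBFunction (MvPolynomial.map (Int.castRingHom ℂ) (polyK n hn a b e κ G)) c) :
    c.eval ((-Real.log ‖T₀‖ / Real.log p : ℝ) : ℂ) = 0 := by
  obtain ⟨Fd, hFd, -⟩ := Pool.Agent.K3h15.DM.disc_unique n
  obtain ⟨c', t, ht, r, z, β, hc, hzi, hβ, hz0, h, hmult⟩ :=
    complex_kum hn a b (by omega : 0 < e) hκ hG hFd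
  have hb2 : IsBFunction (Pool.Agent.H942.KC.kum n hn e Fd a b r z β) c := by
    have h1 := Pool.Agent.W206.CU.isBFunction_smul (inv_ne_zero hc) hb
    rw [h, ← mul_assoc, ← map_mul, inv_mul_cancel₀ hc, map_one, one_mul] at h1
    have h2 := Pool.Agent.W206.CU.isBFunction_iso (sgE n ht).symm h1
    rwa [AlgEquiv.symm_apply_apply] at h2
  have ha0 : (a : ℂ) ≠ 0 := by
    have : a ≠ 0 := by omega
    exact_mod_cast this
  have he0 : (e : ℂ) ≠ 0 := by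
    have : e ≠ 0 := by omega
    exact_mod_cast this
  rcases pole_listK hn ha he hκ hG hp hμ hT with ⟨m, hm, hmn, ht⟩ | ⟨m, w, hm, hmn, hw, ht⟩ |
    ⟨m, hm, hmn, hmb, ht⟩
  · have h3 := Pool.Agent.H942.KC.roots_free hn hFd ha he hz0 hb2 hm hmn (i := 0) (by omega)
    rw [ht]
    have hm0 : (m : ℂ) ≠ 0 := by
      have : m ≠ 0 := by omega
      exact_mod_cast this
    have h4 : ((-(((m : ℝ) + 2) / (2 * a * m)) : ℝ) : ℂ) =
        -(1 / 2 + 1 / (m : ℂ) + ((0 : ℕ) : ℂ)) / a := by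
      push_cast
      field_simp
      ring
    rw [h4]
    exact h3
  · obtain ⟨j, hj⟩ := hmult w hw
    have h3 := Pool.Agent.H942.KC.roots_marked hn hFd ha he hz0 hzi hb2 (hβ j) hm hmn
      (i := 0) (i' := 0) (by omega) (by omega) (Or.inl (by rw [hj]; omega))
    rw [ht]
    have h4 : ((-(((m : ℝ) + 1) / (2 * (a * ((m : ℝ) - 1) +
        (G.map (Int.castRingHom ℂ)).rootMultiplicity w))) : ℝ) : ℂ) =
        -(((m : ℂ) + 1) / 2 + ((0 : ℕ) : ℂ) * (m - 1) + ((0 : ℕ) : ℂ)) / (a * (m - 1) + β j) := by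
      rw [hj]
      push_cast
      rw [zero_mul, add_zero, add_zero, neg_div, div_div]
    rw [h4]
    exact h3
  · have h3 := Pool.Agent.H942.KC.roots_ram hn hFd ha he hz0 hb2 hm hmn (i := 0) (i' := 0)
      (by omega) (Nat.zero_le _) (by
        rcases hmb with h | h
        · right
          exact ⟨h, by omega⟩
        · left
          exact Nat.div_pos (by omega) (by omega))
    rw [ht]
    have h7 : ((a : ℂ) * (e * ((m : ℂ) - 1)) + b) ≠ 0 := by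
      have h8 : a * (e * (m - 1)) + b ≠ 0 := by
        rcases hmb with h | h
        · have : 0 < a * (e * (m - 1)) :=
            Nat.mul_pos (by omega) (Nat.mul_pos (by omega) (by omega))
          omega
        · omega
      have h9 : ((a * (e * (m - 1)) + b : ℕ) : ℂ) ≠ 0 := by exact_mod_cast h8
      push_cast [Nat.cast_sub hm] at h9
      exact h9
    have h4 : ((-((e * ((m : ℝ) - 1) + 2) / (2 * (a * (e * ((m : ℝ) - 1)) + b))) : ℝ) : ℂ) =
        -((1 / (e : ℂ) + ((m : ℂ) - 1) / 2) + ((0 : ℕ) : ℂ) * (m - 1) + ((0 : ℕ) : ℂ)) /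
          (a * (m - 1) + b / e) := by
      push_cast
      have h10 : (a : ℂ) * ((m : ℂ) - 1) + b / e = (a * (e * ((m : ℂ) - 1)) + b) / e := by
        field_simp
      rw [h10]
      field_simp
      ring
    rw [h4]
    exact h3

end Pool.Agent.H942.DP.KQ
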