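import Pool.Agent.H942.KQ.Scal

set_option autoImplicit false

/-! The induction on the degree. -/

namespace Pool.Agent.H942.DP.KQ

open MeasureTheory Metric Set Polynomial Topology Filter

variable {p : ℕ} [hp : Fact p.Prime] {A : ℕ → ℕ → Prop}

section K

variable {K : IntermediateField ℚ_[p] (PadicAlgCl p)} {n : ℕ}

theorem zero_of_kx {e : ℕ} {κ : K} {x : Fin n → K} (hn : 0 < n) (h : mp (kx κ e x) = X ^ n)
    (h0 : x ⟨0, hn⟩ = 0) : x = 0 := by
  have h1 : kx κ e x = 0 := zero_of_mp (by rw [h, C_0, sub_zero])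
  funext i
  by_cases hi : (i : ℕ) = 0
  · have : i = ⟨0, hn⟩ := Fin.ext hi
    rw [this]
    exact h0
  · have h2 := congrFun h1 i
    rwa [kx_of_ne _ _ _ hi] at h2

variable [FiniteDimensional ℚ_[p] K]

theorem lg_beta' {a b e m l : ℕ} {P : ℤ[X]} (he : 2 ≤ e) (hm0 : 0 < m) (hl0 : 0 < l)
    (hm : GoodQ p A a b e P m) (hl : GoodQ p A a b e P l) {κ : K} (hκ : κ ≠ 0) (hn : 0 < n)
    (hml : n = m + l) {z0 : Fin n → K} (hz : z0 ∈ OK κ e n) (hz00 : z0 ⟨0, hn⟩ = 0)
    {y1 : Fin l → K} (hy1 : mp (kx κ e z0) = X ^ m * mp y1) (hy10 : y1 ⟨0, hl0⟩ ≠ 0) :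
    LG p A (wq a b e K κ n (toOm p P)) z0 := by
  subst hml
  exact lg_beta he hm0 hl0 hm hl hκ hz hz00 hy1 hy10

/-- The points different from the origin. -/
theorem lg_ne {a b e : ℕ} {P : ℤ[X]} (he : 2 ≤ e) (hn : 1 ≤ n) (hgood : Good p A a P n)
    (hind : ∀ m, 1 ≤ m → m < n → GoodQ p A a b e P m) {κ : K} (hκ : κ ≠ 0) {z0 : Fin n → K}
    (hz : z0 ∈ OK κ e n) (hne : z0 ≠ 0) : LG p A (wq a b e K κ n (toOm p P)) z0 := by
  by_cases h0 : z0 ⟨0, hn⟩ = 0
  · set h := mp (kx κ e z0) with hh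
    have hm : h.Monic := mp_monic _
    obtain ⟨q, hq, hnd⟩ := exists_eq_pow_rootMultiplicity_mul_and_not_dvd h hm.ne_zero 0
    set μ := h.rootMultiplicity 0 with hμ
    rw [C_0, sub_zero] at hq hnd
    have hqm : q.Monic := (monic_X_pow μ).of_mul_monic_left (hq ▸ hm)
    have hμ1 : 1 ≤ μ := by
      have h1 : h.IsRoot 0 := by
        rw [IsRoot, hh, eval_zero_eq, c0_kx hn, c0_eq hn, h0, zero_pow (by omega), mul_zero]
      exact (rootMultiplicity_pos hm.ne_zero).mpr h1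
    have hdeg : n = μ + q.natDegree := by
      have h1 := congrArg natDegree hq
      rw [(monic_X_pow μ).natDegree_mul hqm, natDegree_X_pow, hh, mp_natDegree] at h1
      exact h1
    rcases Nat.eq_zero_or_pos q.natDegree with hq0 | hq0
    · exfalso
      have hq1 : q = 1 := eq_one_of_monic_natDegree_zero hqm hq0
      rw [hq1, mul_one] at hq
      rw [hq0, add_zero] at hdeg
      rw [← hdeg] at hq
      exact hne (zero_of_kx hn hq h0)
    · obtain ⟨y1, hy1, -⟩ := exists_mp (n := q.natDegree) hqm rfl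
      refine lg_beta' he hμ1 hq0 (hind μ hμ1 (by omega)) (hind _ hq0 (by omega)) hκ hn hdeg hz h0
        (y1 := y1) (by rw [hy1]; exact hq) ?_
      intro h1
      apply hnd
      rw [X_dvd_iff, ← hy1]
      have h2 := mp_coeff y1 ⟨0, hq0⟩
      rw [h1] at h2
      exact h2
  · exact lg_alpha (by omega) hn hgood hκ hz h0

omit [FiniteDimensional ℚ_[p] K] in
theorem wq_one_one {a e : ℕ} (κ : K) (x : Fin 1 → K) :
    wq a 0 e K κ 1 (toOm p (X ^ 0)) x = 1 := by
  rw [wq, wt_one, zero_mul, pow_zero, mul_one]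

/-- The series of all integral points. -/
theorem rat_OK {a b e : ℕ} (he : 2 ≤ e) (hn : 1 ≤ n) (hgood : Good p A a (X ^ 0) n)
    (hind : ∀ m, 1 ≤ m → m < n → GoodQ p A a b e (X ^ 0) m)
    (hN : 0 < NQ K a b e n)
    (hA : A (Module.finrank ℚ_[p] K * ∑ i : Fin n, se n e 1 i) (NQ K a b e n))
    {κ : K} (hκ : κ ≠ 0) : Rat p A (ser p (wq a b e K κ n (toOm p (X ^ 0))) (OK κ e n)) := by
  have he1 : 1 ≤ e := by omega
  have hO : KO (OK κ e n) := ko_OK κ e n
  have hD : KO (OK κ e n \ boxq κ e n 1) := hO.diff (ko_boxq κ e 1)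
  have hadm := adm_wq (n := n) (K := K) a b e κ (X ^ 0)
  have hY : Rat p A (ser p (wq a b e K κ n (toOm p (X ^ 0))) (OK κ e n \ boxq κ e n 1)) := by
    refine rat_of_LG hp.out.one_lt hD (hadm.mono sdiff_subset) fun z hz => ?_
    refine lg_ne he hn hgood hind hκ hz.1 ?_
    rintro rfl
    exact hz.2 (zero_mem_boxq κ he1 1)
  refine Rat.solve _ _ hN hA hY ?_
  have h5 : OK κ e n = (OK κ e n \ boxq κ e n 1) ∪ boxq κ e n 1 :=
    (sdiff_union_of_subset (boxq_sub_OK κ e 1)).symm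
  conv_lhs => rw [h5]
  rw [ser_union hp.out.one_lt hD (ko_boxq κ e 1) (hadm.mono sdiff_subset)
    (hadm.mono (boxq_sub_OK κ e 1)) disjoint_sdiff_left, ser_boxq hn, one_mul]
  ring

theorem goodQ_one {a b e : ℕ} (ha : 1 ≤ a) (he : 2 ≤ e) (hn : 1 ≤ n)
    (hgood : Good p A a (X ^ 0) n)
    (hind : ∀ m, 1 ≤ m → m < n → GoodQ p A a b e (X ^ 0) m)
    (hA : ∀ (K : IntermediateField ℚ_[p] (PadicAlgCl p)) [FiniteDimensional ℚ_[p] K],
      0 < NQ K a b e n → A (Module.finrank ℚ_[p] K * ∑ i : Fin n, se n e 1 i) (NQ K a b e n)) :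
    GoodQ p A a b e (X ^ 0) n := by
  intro K _ κ hκ V hVO hV
  have he1 : 1 ≤ e := by omega
  have hadm := adm_wq (n := n) (K := K) a b e κ (X ^ 0)
  by_cases hN : 0 < NQ K a b e n
  · have hZ := rat_OK he hn hgood hind hN (hA K hN) hκ
    refine rat_of_LG hp.out.one_lt hV (hadm.mono hVO) fun z hz => ?_
    by_cases hz0 : z = 0
    · subst hz0
      obtain ⟨r, hr, hrO⟩ := (ko_OK κ e n).exists_ball (hVO hz)
      refine ⟨r, hr, fun s hs hsr => ?_⟩
      obtain ⟨k, hk⟩ := exists_pow_lt (p := p) s hs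
      have hsub : boxq κ e n k ⊆ closedBall 0 s :=
        (boxq_sub_ball he1 k).trans (closedBall_subset_closedBall hk)
      have hsO : closedBall (0 : Fin n → K) s ⊆ OK κ e n :=
        (closedBall_subset_closedBall hsr).trans hrO
      have hD : KO (closedBall (0 : Fin n → K) s \ boxq κ e n k) :=
        (ko_ball _ hs).diff (ko_boxq κ e k)
      have h5 : closedBall (0 : Fin n → K) s = (closedBall 0 s \ boxq κ e n k) ∪ boxq κ e n k :=
        (sdiff_union_of_subset hsub).symm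
      rw [h5, ser_union hp.out.one_lt hD (ko_boxq κ e k) (hadm.mono (sdiff_subset.trans hsO))
          (hadm.mono (boxq_sub_OK κ e k)) disjoint_sdiff_left]
      refine Rat.add ?_ (rat_boxq hn a b e k κ hZ)
      refine rat_of_LG hp.out.one_lt hD (hadm.mono (sdiff_subset.trans hsO)) fun z hz => ?_
      refine lg_ne he hn hgood hind hκ (hsO hz.1) ?_
      rintro rfl
      exact hz.2 (zero_mem_boxq κ he1 k)
    · exact lg_ne he hn hgood hind hκ (hVO hz) hz0
  · have hd : 0 < Module.finrank ℚ_[p] K := Module.finrank_pos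
    have h0 : e * (a * (n * (n - 1))) + n * b = 0 := by
      rw [NQ] at hN
      by_contra h
      exact hN (Nat.mul_pos (Nat.pos_of_ne_zero h) hd)
    have hb : b = 0 := by
      have : n * b = 0 := by omega
      rcases Nat.mul_eq_zero.mp this with h | h
      · omega
      · exact h
    have hn1 : n = 1 := by
      have h1 : e * (a * (n * (n - 1))) = 0 := by omega
      rcases Nat.mul_eq_zero.mp h1 with h | h
      · omega
      · rcases Nat.mul_eq_zero.mp h with h | h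
        · omega
        · rcases Nat.mul_eq_zero.mp h with h | h <;> omega
    subst hb
    subst hn1
    rw [ser_one hp.out.one_lt fun x _ => wq_one_one κ x]
    exact rat_C _

omit hp in
theorem wt_alg4 (D R S : ℝ) (a k : ℕ) : (D ^ a * R) ^ k * S = R ^ k * ((D ^ a * 1) ^ k * S) := by
  ring

/-- The origin. -/
theorem lg_origin {a b e : ℕ} {P : ℤ[X]} (he : 1 ≤ e) (hP : P.eval 0 ≠ 0)
    (hgood : GoodQ p A a b e (X ^ 0) n) {κ : K} (hκ : κ ≠ 0) :
    LG p A (wq a b e K κ n (toOm p P)) 0 := by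
  set f : (Fin n → K) → PadicAlgCl p := fun x => rr n (up (kx κ e x)) (toOm p P) with hf
  have hfc : Continuous f := (continuous_rr _).comp (continuous_kx κ e)
  have hkx : kx κ e (0 : Fin n → K) = 0 := by
    funext i
    rw [kx]
    split_ifs
    · rw [Pi.zero_apply, zero_pow (by omega), mul_zero]
    · rfl
  have hup0 : up (0 : Fin n → K) = (X - C (0 : PadicAlgCl p)) ^ n := by
    rw [up, mp_eq, C_0, sub_zero]
    have h1 : lp (fun i : Fin n => (((0 : Fin n → K) i : K) : PadicAlgCl p)) = 0 := by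
      rw [lp]
      refine Finset.sum_eq_zero fun i _ => ?_
      simp
    rw [h1, add_zero]
  have hf0 : f 0 ≠ 0 := by
    rw [hf]
    simp only
    rw [hkx, hup0, rr_X_sub_C_pow]
    refine pow_ne_zero _ ?_
    rw [toOm, eval_zero_map]
    rw [Ne, map_eq_zero_iff _ (RingHom.injective_int _)]
    exact hP
  have h00 : (0 : Fin n → K) ∈ OK κ e n := zero_mem_OK κ he
  have hf1 : ‖f 0‖ ≤ 1 := norm_rr_le (int1_up.mpr h00.2) (int1_int P) n
  set U : Set (Fin n → K) := OK κ e n ∩ {x | ‖f x‖ = ‖f 0‖} with hU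
  have hUn : U ∈ 𝓝 (0 : Fin n → K) := inter_mem ((isOpen_OK κ e n).mem_nhds h00)
    (norm_eventually hfc.continuousAt hf0)
  refine LG_of_rat hUn fun s hs hsU => ?_
  have hsO : closedBall (0 : Fin n → K) s ⊆ OK κ e n := hsU.trans inter_subset_left
  obtain ⟨j, hj⟩ := ser_const_mul (κ := ‖f 0‖ ^ (Module.finrank ℚ_[p] K)) hp.out.one_lt
    ((adm_wq a b e κ P).mono hsO) ((adm_wq a b e κ (X ^ 0)).mono hsO)
    (pow_pos (norm_pos_iff.mpr hf0) _) (pow_le_one₀ (norm_nonneg _) hf1) (fun x hx => by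
      have h1 : ‖rr n (up (kx κ e x)) (toOm p P)‖ = ‖f 0‖ := (hsU hx).2
      rw [wq, wq, wt, wt, h1, toOm_X_pow, pow_zero, rr_one_right (up_monic _) (up_natDegree _),
        norm_one]
      exact wt_alg4 _ _ _ _ _)
  rw [hj]
  exact (rat_X_pow j).mul (hgood K κ hκ _ hsO (ko_ball _ hs))

theorem goodQ_P {a b e : ℕ} {P : ℤ[X]} (he : 2 ≤ e) (hn : 1 ≤ n) (hP : P.eval 0 ≠ 0)
    (hgood : Good p A a P n) (hind : ∀ m, 1 ≤ m → m < n → GoodQ p A a b e P m)
    (h1 : GoodQ p A a b e (X ^ 0) n) : GoodQ p A a b e P n := by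
  intro K _ κ hκ V hVO hV
  refine rat_of_LG hp.out.one_lt hV ((adm_wq a b e κ P).mono hVO) fun z hz => ?_
  by_cases hz0 : z = 0
  · rw [hz0]
    exact lg_origin (by omega) hP h1 hκ
  · exact lg_ne he hn hgood hind hκ (hVO hz) hz0

end K

theorem goodQ_all {a b e n0 : ℕ} (ha : 1 ≤ a) (he : 2 ≤ e) {P : ℤ[X]} (hP : P.eval 0 ≠ 0)
    (hA : Adm2 p A a n0 {b | ∃ r : PadicAlgCl p, b = (toOm p P).rootMultiplicity r})
    (hAQ : ∀ n, 1 ≤ n → n ≤ n0 →
      ∀ (K : IntermediateField ℚ_[p] (PadicAlgCl p)) [FiniteDimensional ℚ_[p] K],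
      0 < NQ K a b e n → A (Module.finrank ℚ_[p] K * ∑ i : Fin n, se n e 1 i) (NQ K a b e n)) :
    ∀ n, 1 ≤ n → n ≤ n0 → GoodQ p A a b e P n := by
  have hP0 : P ≠ 0 := by
    rintro rfl
    exact hP (eval_zero)
  have hA1 : Adm2 p A a n0
      {b | ∃ r : PadicAlgCl p, b = (toOm p ((X : ℤ[X]) ^ 0)).rootMultiplicity r} := by
    refine ⟨hA.1, ?_⟩
    rintro n b hn hn0 hb ⟨r, hr⟩
    exfalso
    rw [toOm_X_pow, pow_zero, rootMultiplicity_eq_zero (by simp)] at hr
    omega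
  have hg1 := good_all ha (pow_ne_zero 0 (X_ne_zero (R := ℤ))) hA1
  have hg2 := good_all ha hP0 hA
  have h1 : ∀ n, 1 ≤ n → n ≤ n0 → GoodQ p A a b e (X ^ 0) n := by
    intro n
    induction n using Nat.strong_induction_on with
    | _ n ih =>
      intro hn hn0
      exact goodQ_one ha he hn (hg1 n hn hn0) (fun m hm hmn => ih m hmn hm (by omega))
        (hAQ n hn hn0)
  intro n
  induction n using Nat.strong_induction_on with
  | _ n ih =>
    intro hn hn0
    exact goodQ_P he hn hP (hg2 n hn hn0) (fun m hm hmn => ih m hmn hm (by omega)) (h1 n hn hn0)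

end Pool.Agent.H942.DP.KQ
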