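import Pool.Agent.H942.KQ.Ind
import Pool.Agent.H942.DP.Final
import Pool.Agent.H942.KC.Roots

set_option autoImplicit false

/-! The polynomial over `ℤ_p` and over `ℂ`. -/

namespace Pool.Agent.H942.DP.KQ

open Polynomial
open Pool.Agent.K3h15.DM (IsDisc hz)
open Pool.Agent.H628R4.TP (IsBFunction)
open Pool.Agent.W206.CU (poincare IsPoleOfOrder)

/-- `h = T ^ n + x_{n-1} T ^ (n-1) + ⋯ + x_1 T + κ q ^ e`, `q = x_0`. -/
noncomputable def kpol (n e : ℕ) (κ : ℤ) : (MvPolynomial (Fin n) ℤ)[X] :=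
  X ^ n + ∑ i : Fin n,
    C (if (i : ℕ) = 0 then MvPolynomial.C κ * MvPolynomial.X i ^ e else MvPolynomial.X i) *
      X ^ (i : ℕ)

/-- `disc(h) ^ a * Res(h, G) * q ^ b`. -/
noncomputable def polyK (n : ℕ) (hn : 0 < n) (a b e : ℕ) (κ : ℤ) (G : ℤ[X]) :
    MvPolynomial (Fin n) ℤ :=
  (kpol n e κ).discr ^ a * resultant (kpol n e κ) (G.map MvPolynomial.C) n G.natDegree *
    MvPolynomial.X ⟨0, hn⟩ ^ b

theorem kpol_eq (n e : ℕ) (κ : ℤ) :
    kpol n e κ = mp (kx (MvPolynomial.C κ) e MvPolynomial.X) := by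
  unfold kpol mp kx
  rfl

theorem kx_map {R S : Type*} [CommRing R] [CommRing S] (φ : R →+* S) {n : ℕ} (κ : R) (e : ℕ)
    (x : Fin n → R) : (fun i => φ (kx κ e x i)) = kx (φ κ) e (fun i => φ (x i)) := by
  funext i
  simp only [kx]
  split_ifs
  · rw [map_mul, map_pow]
  · rfl

theorem kpol_map {R : Type*} [CommRing R] {n e : ℕ} (κ : ℤ) (x : Fin n → R) :
    (kpol n e κ).map (MvPolynomial.aeval x : MvPolynomial (Fin n) ℤ →ₐ[ℤ] R).toRingHom =
      mp (kx (κ : R) e x) := by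
  have h1 : (MvPolynomial.aeval x : MvPolynomial (Fin n) ℤ →ₐ[ℤ] R).toRingHom
      (MvPolynomial.C κ) = (κ : R) := by
    have h2 := MvPolynomial.aeval_C x κ
    exact h2
  have h3 : (fun i => (MvPolynomial.aeval x : MvPolynomial (Fin n) ℤ →ₐ[ℤ] R).toRingHom
      (MvPolynomial.X i)) = x := funext fun i => MvPolynomial.aeval_X x i
  rw [kpol_eq, mp_map, kx_map, h1, h3]

theorem aeval_polyK {R : Type*} [CommRing R] {n : ℕ} (hn : 0 < n) (a b e : ℕ) (κ : ℤ) (G : ℤ[X])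
    (x : Fin n → R) :
    MvPolynomial.aeval x (polyK n hn a b e κ G) =
      ((-1) ^ (n * (n - 1) / 2) * dd n (mp (kx (κ : R) e x))) ^ a *
      resultant (mp (kx (κ : R) e x)) (G.map (Int.castRingHom R)) n G.natDegree *
        x ⟨0, hn⟩ ^ b := by
  set φ := (MvPolynomial.aeval x : MvPolynomial (Fin n) ℤ →ₐ[ℤ] R).toRingHom with hφ
  have h1 : MvPolynomial.aeval x (polyK n hn a b e κ G) = φ (polyK n hn a b e κ G) := rfl
  have h2 : (G.map MvPolynomial.C).map φ = G.map (Int.castRingHom R) := by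
    rw [Polynomial.map_map]
    congr 1
    exact RingHom.ext_int _ _
  have h3 : (kpol n e κ).Monic := by
    rw [kpol_eq]
    exact mp_monic _
  have h4 : (kpol n e κ).natDegree = n := by
    rw [kpol_eq]
    exact mp_natDegree _
  have h5 : φ (MvPolynomial.X ⟨0, hn⟩) = x ⟨0, hn⟩ := MvPolynomial.aeval_X x _
  rw [h1, polyK, map_mul, map_mul, map_pow, map_pow, ← resultant_map_map, kpol_map, h2,
    discr_eq_dd hn h3 h4, map_mul, map_pow, ← dd_map, kpol_map, h5]
  congr 5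
  simp

theorem aeval_polyK' {R : Type*} [CommRing R] {n : ℕ} (hn : 0 < n) (a b e : ℕ) (κ : ℤ) (G : ℤ[X])
    (x : Fin n → R) :
    MvPolynomial.aeval x (polyK n hn a b e κ G) =
      MvPolynomial.aeval (kx (κ : R) e x) (polyDR n a G) * x ⟨0, hn⟩ ^ b := by
  rw [aeval_polyK, aeval_polyDR hn]

section Padic

variable {p : ℕ} [hp : Fact p.Prime] {n : ℕ}

theorem wq_em (hn : 0 < n) (a b e : ℕ) (κ : ℤ) (G : ℤ[X]) (x : Fin n → ℤ_[p]) :
    wq a b e (Qb p) (κ : Qb p) n (toOm p G) (em p n x) =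
      ‖(MvPolynomial.aeval x (polyK n hn a b e κ G) : ℤ_[p])‖ := by
  have h1 : kx (κ : Qb p) e (em p n x) = em p n (kx (κ : ℤ_[p]) e x) := by
    funext i
    rw [em_apply, kx, kx]
    split_ifs
    · rw [em_apply, PadicInt.coe_mul, PadicInt.coe_pow, map_mul, map_pow, PadicInt.coe_intCast,
        map_intCast]
    · rfl
  have h2 : ‖c0 (em p n x)‖ = ‖x ⟨0, hn⟩‖ := by
    rw [c0_eq hn, em_apply, norm_algebraMap']
    rfl
  rw [wq, h1, wt_em hn, h2, IntermediateField.finrank_bot, mul_one, aeval_polyK', norm_mul,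
    norm_pow]

theorem norm_int_le (K : IntermediateField ℚ_[p] (PadicAlgCl p)) (κ : ℤ) : ‖(κ : K)‖ ≤ 1 := by
  have h2 := int1_int (k := K) (C κ) 0
  simpa using h2

theorem OK_int (K : IntermediateField ℚ_[p] (PadicAlgCl p)) (κ : ℤ) (e n : ℕ) :
    OK (κ : K) e n = Metric.closedBall 0 1 := by
  refine Set.Subset.antisymm (OK_sub _ _ _) fun x hx => ⟨hx, ?_⟩
  rw [mem_closedBall_zero_iff, pi_norm_le_iff_of_nonneg zero_le_one] at hx
  rw [Set.mem_preimage, mem_closedBall_zero_iff, pi_norm_le_iff_of_nonneg zero_le_one]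
  intro i
  rw [kx]
  split_ifs
  · rw [norm_mul, norm_pow]
    exact mul_le_one₀ (norm_int_le K κ) (by positivity) (pow_le_one₀ (norm_nonneg _) (hx i))
  · exact hx i

end Padic

section Complex

variable {n : ℕ}

/-- The factorization over the complex numbers. -/
theorem complex_factor' (hn : 1 ≤ n) (a : ℕ) {G : ℤ[X]} (hG : G ≠ 0)
    {Fd : MvPolynomial (Fin n) ℂ} (hFd : IsDisc n Fd) :
    ∃ (c : ℂ) (r : ℕ) (z : Fin r → ℂ) (b : Fin r → ℕ), c ≠ 0 ∧ Function.Injective z ∧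
      (∀ j, 1 ≤ b j) ∧ (∀ j, (G.map (Int.castRingHom ℂ)).eval (z j) = 0) ∧
      MvPolynomial.map (Int.castRingHom ℂ) (polyDR n a G) =
        MvPolynomial.C c * (Fd ^ a * ∏ j, hz n (z j) ^ b j) ∧
      ∀ w : ℂ, 1 ≤ (G.map (Int.castRingHom ℂ)).rootMultiplicity w →
        ∃ j, b j = (G.map (Int.castRingHom ℂ)).rootMultiplicity w := by
  classical
  set GC := G.map (Int.castRingHom ℂ) with hGC
  have hGC0 : GC ≠ 0 := by
    rw [hGC, Ne, Polynomial.map_eq_zero_iff (RingHom.injective_int _)]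
    exact hG
  have hdeg : GC.natDegree = G.natDegree :=
    natDegree_map_eq_of_injective (RingHom.injective_int _) G
  obtain ⟨ε, hε, hdd⟩ := dd_roots (n := n)
  set R := GC.roots.toFinset with hR
  let ez := R.equivFin.symm
  refine ⟨((-1) ^ (n * (n - 1) / 2) * ε) ^ a * ((-1) ^ (n * G.natDegree) *
    GC.leadingCoeff ^ n), R.card, fun j => (ez j : ℂ), fun j => GC.roots.count (ez j : ℂ),
    ?_, ?_, ?_, ?_, ?_, ?_⟩
  · refine mul_ne_zero (pow_ne_zero _ (mul_ne_zero (pow_ne_zero _ (by norm_num)) hε))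
      (mul_ne_zero (pow_ne_zero _ (by norm_num)) (pow_ne_zero _ (leadingCoeff_ne_zero.mpr hGC0)))
  · intro i j h
    exact ez.injective (Subtype.ext h)
  · intro j
    exact Multiset.one_le_count_iff_mem.mpr (Multiset.mem_toFinset.mp (ez j).2)
  · intro j
    exact (mem_roots'.mp (Multiset.mem_toFinset.mp (ez j).2)).2
  · apply MvPolynomial.funext
    intro x
    obtain ⟨y, hy⟩ := Pool.Agent.K3h15.DM.coeffs_surj n x
    have h1 : MvPolynomial.eval x (MvPolynomial.map (Int.castRingHom ℂ) (polyDR n a G)) =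
        MvPolynomial.aeval x (polyDR n a G) := by
      rw [MvPolynomial.eval_map]
      rfl
    have hmp : mp x = ∏ i, (X - C (y i)) := by rw [← hy, mp_coeffs]
    have h2 : MvPolynomial.eval x Fd = ∏ i : Fin n, ∏ j ∈ Finset.Ioi i, (y j - y i) ^ 2 := by
      rw [← hy]
      exact hFd y
    have h3 : resultant (mp x) GC n G.natDegree = (-1) ^ (n * G.natDegree) *
        (GC.leadingCoeff ^ n * ∏ j : Fin R.card, (mp x).eval (ez j : ℂ) ^
          GC.roots.count (ez j : ℂ)) := by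
      rw [resultant_comm, ← hdeg]
      congr 1
      have h4 := resultant_eq_prod_eval GC (mp x) n (mp_natDegree x).le (IsAlgClosed.splits GC)
      rw [h4]
      congr 1
      rw [Finset.prod_multiset_map_count]
      have h5 := Fintype.prod_equiv ez (fun j => (mp x).eval (ez j : ℂ) ^
        GC.roots.count (ez j : ℂ)) (fun w : R => (mp x).eval (w : ℂ) ^ GC.roots.count (w : ℂ))
        (fun j => rfl)
      rw [h5, ← Finset.prod_coe_sort R]
    rw [h1, aeval_polyDR hn, h3, map_mul, MvPolynomial.eval_C, map_mul, map_pow, h2, map_prod,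
      hmp, hdd y]
    have h6 : ∀ j : Fin R.card, MvPolynomial.eval x (hz n (ez j : ℂ) ^ GC.roots.count (ez j : ℂ)) =
        (∏ i, (X - C (y i))).eval (ez j : ℂ) ^ GC.roots.count (ez j : ℂ) := by
      intro j
      rw [map_pow, eval_hz, hmp]
    simp only [h6]
    ring
  · intro w hw
    have hwR : w ∈ R := by
      rw [hR, Multiset.mem_toFinset, ← Multiset.one_le_count_iff_mem, count_roots]
      exact hw
    refine ⟨ez.symm ⟨w, hwR⟩, ?_⟩
    simp only [Equiv.apply_symm_apply, count_roots]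

theorem eval_io (hn : 0 < n) (e : ℕ) (x : Fin n → ℂ) (F : MvPolynomial (Fin n) ℂ) :
    MvPolynomial.eval x (Pool.Agent.H942.KC.io e (⟨0, hn⟩ : Fin n) F) =
      MvPolynomial.eval (kx 1 e x) F := by
  have h1 : (MvPolynomial.aeval x : MvPolynomial (Fin n) ℂ →ₐ[ℂ] ℂ).comp
      (Pool.Agent.H942.KC.io e (⟨0, hn⟩ : Fin n)) = MvPolynomial.aeval (kx 1 e x) := by
    apply MvPolynomial.algHom_ext
    intro i
    rw [AlgHom.comp_apply, MvPolynomial.aeval_X, kx]
    by_cases h : (i : ℕ) = 0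
    · have hi : i = ⟨0, hn⟩ := Fin.ext h
      rw [if_pos h, hi, Pool.Agent.H942.KC.io_X_self, map_pow, MvPolynomial.aeval_X, one_mul]
    · rw [if_neg h, Pool.Agent.H942.KC.io_X_ne (fun hi => h (by rw [hi])), MvPolynomial.aeval_X]
  exact DFunLike.congr_fun h1 F

/-- The multiplication of the coordinate with index `0` by a constant. -/
noncomputable def sg (n : ℕ) (t : ℂ) : MvPolynomial (Fin n) ℂ →ₐ[ℂ] MvPolynomial (Fin n) ℂ :=
  MvPolynomial.aeval fun i =>
    if (i : ℕ) = 0 then MvPolynomial.C t * MvPolynomial.X i else MvPolynomial.X i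

theorem sg_comp (n : ℕ) {t u : ℂ} (h : t * u = 1) : (sg n t).comp (sg n u) = AlgHom.id ℂ _ := by
  apply MvPolynomial.algHom_ext
  intro i
  rw [AlgHom.comp_apply, AlgHom.id_apply, sg, sg, MvPolynomial.aeval_X]
  by_cases hi : (i : ℕ) = 0
  · rw [if_pos hi, map_mul, MvPolynomial.aeval_X, if_pos hi, ← MvPolynomial.algebraMap_eq,
      AlgHom.commutes, MvPolynomial.algebraMap_eq, ← mul_assoc, ← map_mul, mul_comm u t, h,
      map_one, one_mul]
  · rw [if_neg hi, MvPolynomial.aeval_X, if_neg hi]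

/-- The multiplication of the coordinate with index `0` by a constant. -/
noncomputable def sgE (n : ℕ) {t : ℂ} (ht : t ≠ 0) :
    MvPolynomial (Fin n) ℂ ≃ₐ[ℂ] MvPolynomial (Fin n) ℂ :=
  AlgEquiv.ofAlgHom (sg n t) (sg n t⁻¹) (sg_comp n (mul_inv_cancel₀ ht))
    (sg_comp n (inv_mul_cancel₀ ht))

theorem sgE_apply (n : ℕ) {t : ℂ} (ht : t ≠ 0) (F : MvPolynomial (Fin n) ℂ) :
    sgE n ht F = sg n t F := rfl

theorem eval_sg (t : ℂ) (x : Fin n → ℂ) (F : MvPolynomial (Fin n) ℂ) :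
    MvPolynomial.eval x (sg n t F) = MvPolynomial.eval (kx t 1 x) F := by
  have h1 : (MvPolynomial.aeval x : MvPolynomial (Fin n) ℂ →ₐ[ℂ] ℂ).comp (sg n t) =
      MvPolynomial.aeval (kx t 1 x) := by
    apply MvPolynomial.algHom_ext
    intro i
    rw [AlgHom.comp_apply, MvPolynomial.aeval_X, kx, sg, MvPolynomial.aeval_X]
    split_ifs
    · rw [map_mul, MvPolynomial.aeval_X, pow_one, ← MvPolynomial.algebraMap_eq, AlgHom.commutes]
      rfl
    · rw [MvPolynomial.aeval_X]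
  exact DFunLike.congr_fun h1 F

theorem complex_kum (hn : 0 < n) (a b : ℕ) {e : ℕ} (he : 0 < e) {κ : ℤ} (hκ : κ ≠ 0) {G : ℤ[X]}
    (hG : G.eval 0 ≠ 0) {Fd : MvPolynomial (Fin n) ℂ} (hFd : IsDisc n Fd) :
    ∃ (c t : ℂ) (ht : t ≠ 0) (r : ℕ) (z : Fin r → ℂ) (β : Fin r → ℕ), c ≠ 0 ∧
      Function.Injective z ∧ (∀ j, 1 ≤ β j) ∧ (∀ j, z j ≠ 0) ∧
      MvPolynomial.map (Int.castRingHom ℂ) (polyK n hn a b e κ G) =
        MvPolynomial.C c * sgE n ht (Pool.Agent.H942.KC.kum n hn e Fd a b r z β) ∧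
      ∀ w : ℂ, 1 ≤ (G.map (Int.castRingHom ℂ)).rootMultiplicity w →
        ∃ j, β j = (G.map (Int.castRingHom ℂ)).rootMultiplicity w := by
  have hG0 : G ≠ 0 := by
    rintro rfl
    exact hG eval_zero
  obtain ⟨c, r, z, β, hc, hzi, hβ, hzr, h, hmult⟩ := complex_factor' hn a hG0 hFd
  have hκC : (κ : ℂ) ≠ 0 := by exact_mod_cast hκ
  obtain ⟨t, ht⟩ := IsAlgClosed.exists_pow_nat_eq (κ : ℂ) he
  have ht0 : t ≠ 0 := by
    rintro rfl
    rw [zero_pow (by omega)] at ht
    exact hκC ht.symm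
  refine ⟨c * (t ^ b)⁻¹, t, ht0, r, z, β, mul_ne_zero hc (inv_ne_zero (pow_ne_zero _ ht0)), hzi,
    hβ, fun j hj => ?_, ?_, hmult⟩
  · have h1 := hzr j
    rw [hj, eval_zero_map, map_eq_zero_iff _ (RingHom.injective_int _)] at h1
    exact hG h1
  · apply MvPolynomial.funext
    intro x
    have h1 : ∀ (y : Fin n → ℂ) (P : MvPolynomial (Fin n) ℤ),
        MvPolynomial.eval y (MvPolynomial.map (Int.castRingHom ℂ) P) =
        MvPolynomial.aeval y P := by
      intro y P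
      rw [MvPolynomial.eval_map]
      rfl
    have h2 : kx 1 e (kx t 1 x) = kx (κ : ℂ) e x := by
      funext i
      simp only [kx]
      split_ifs
      · rw [one_mul, pow_one, mul_pow, ht]
      · rfl
    have h3 : kx t 1 x ⟨0, hn⟩ = t * x ⟨0, hn⟩ := by
      rw [kx_zero, pow_one]
    rw [h1, aeval_polyK', ← h1, h, sgE_apply, Pool.Agent.H942.KC.kum]
    simp only [map_mul, map_pow, map_prod, MvPolynomial.eval_C, MvPolynomial.eval_X, eval_sg,
      eval_io hn, h2, h3]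
    field_simp
    rw [mul_pow]
    ring

end Complex

end Pool.Agent.H942.DP.KQ
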