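import Pool.Agent.H942.KQ.Charts

set_option autoImplicit false

/-! The weight at the points with `x_0 ≠ 0`, and at the products of coprime polynomials. -/

namespace Pool.Agent.H942.DP.KQ

open MeasureTheory Metric Set Polynomial Topology Filter

variable {p : ℕ} [hp : Fact p.Prime] {A : ℕ → ℕ → Prop}
  {K : IntermediateField ℚ_[p] (PadicAlgCl p)} [FiniteDimensional ℚ_[p] K]

/-- The points with `x_0 ≠ 0`. -/
theorem lg_alpha {a b e n : ℕ} {P : ℤ[X]} (he : 1 ≤ e) (hn : 0 < n) (hgood : Good p A a P n)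
    {κ : K} (hκ : κ ≠ 0) {z0 : Fin n → K} (hz : z0 ∈ OK κ e n) (h0 : z0 ⟨0, hn⟩ ≠ 0) :
    LG p A (wq a b e K κ n (toOm p P)) z0 := by
  have hc0 : c0 z0 ≠ 0 := by rwa [c0_eq hn]
  set U : Set (Fin n → K) := OK κ e n ∩ {x | ‖c0 x‖ = ‖c0 z0‖} with hU
  have hUn : U ∈ 𝓝 z0 := inter_mem ((isOpen_OK κ e n).mem_nhds hz)
    (norm_eventually continuous_c0.continuousAt hc0)
  let B : (Fin n → K) ≃L[ℚ_[p]] (Fin n → K) :=
    (LinearEquiv.ofInjectiveEndo _ (kdL_injective hn hκ he h0)).toContinuousLinearEquiv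
  have hB : (B : (Fin n → K) →L[ℚ_[p]] (Fin n → K)) = kdL κ e z0 := by
    ext x
    rfl
  have hd : HasStrictFDerivAt (kx κ e : (Fin n → K) → (Fin n → K))
      (B : (Fin n → K) →L[ℚ_[p]] (Fin n → K)) z0 := by
    rw [hB]
    exact strict_kx κ e z0
  refine lg_pull hp.out.one_lt hd (w' := wt a K n (toOm p P)) (O := closedBall 0 1)
    (κ := ‖c0 z0‖ ^ (b * Module.finrank ℚ_[p] K)) (pow_pos (norm_pos_iff.mpr hc0) _)
    (pow_le_one₀ (norm_nonneg _) (norm_c0_le (OK_sub κ e n hz))) hUn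
    (fun x hx => OK_kx hx.1) ?_ ((adm_wq a b e κ P).mono inter_subset_left)
    ((adm_wtk a e κ P).mono inter_subset_left) (fun V hVO hV => hgood K V hVO hV)
  intro x hx
  have h1 : ‖c0 x‖ = ‖c0 z0‖ := hx.2
  rw [wq, h1, mul_comm]

section Vq

variable (K) in
omit [FiniteDimensional ℚ_[p] K] in
/-- The linear map which replaces the coordinate with index `0` by `0`. -/
noncomputable def k0L (n : ℕ) : (Fin n → K) →ₗ[ℚ_[p]] (Fin n → K) :=
  LinearMap.pi fun i => if (i : ℕ) = 0 then 0 else LinearMap.proj i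

omit [FiniteDimensional ℚ_[p] K] in
theorem k0L_apply {n : ℕ} (x : Fin n → K) : k0L K n x = k0 x := by
  funext i
  rw [k0L, LinearMap.pi_apply, k0]
  split_ifs <;> rfl

variable (K) in
omit [FiniteDimensional ℚ_[p] K] in
/-- The coordinate with index `0` and the values at `1, …, n - 1`. -/
noncomputable def vqL (n : ℕ) : (Fin n → K) →ₗ[ℚ_[p]] (Fin n → K) :=
  LinearMap.pi fun j => if (j : ℕ) = 0 then LinearMap.proj j
    else (lpL n ((j : ℕ) : K)).comp (k0L K n)

omit [FiniteDimensional ℚ_[p] K] in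
theorem vqL_apply {n : ℕ} (x : Fin n → K) (j : Fin n) :
    vqL K n x j = if (j : ℕ) = 0 then x j else (lp (k0 x)).eval ((j : ℕ) : K) := by
  rw [vqL, LinearMap.pi_apply]
  split_ifs
  · rfl
  · rw [LinearMap.comp_apply, k0L_apply]
    rfl

omit [FiniteDimensional ℚ_[p] K] in
theorem vqL_injective (n : ℕ) : Function.Injective (vqL K n) := by
  rw [← LinearMap.ker_eq_bot, LinearMap.ker_eq_bot']
  intro x hx
  have h1 : ∀ j : Fin n, (j : ℕ) = 0 → x j = 0 := by
    intro j hj
    have := congrFun hx j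
    rwa [vqL_apply, if_pos hj] at this
  have h2 : k0 x = x := k0_eq h1
  apply valL_injective n
  rw [map_zero]
  funext j
  change (lp x).eval ((j : ℕ) : K) = 0
  by_cases hj : (j : ℕ) = 0
  · have h3 : ((j : ℕ) : K) = 0 := by rw [hj]; simp
    rw [h3, ← coeff_zero_eq_eval_zero]
    have h4 : (0 : ℕ) = (j : ℕ) := hj.symm
    rw [h4, lp_coeff]
    exact h1 j hj
  · have := congrFun hx j
    rw [vqL_apply, if_neg hj, h2] at this
    exact this

variable (K) in
/-- The coordinate with index `0` and the values at `1, …, n - 1`. -/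
noncomputable def vqE (n : ℕ) : (Fin n → K) ≃L[ℚ_[p]] (Fin n → K) :=
  (LinearEquiv.ofInjectiveEndo (vqL K n) (vqL_injective n)).toContinuousLinearEquiv

theorem vqE_apply {n : ℕ} (x : Fin n → K) (j : Fin n) :
    vqE K n x j = if (j : ℕ) = 0 then x j else (lp (k0 x)).eval ((j : ℕ) : K) :=
  vqL_apply x j

end Vq

/-- The resultants of two polynomials. -/
noncomputable def ff (m l : ℕ) (x : (Fin m → K) × (Fin l → K)) : PadicAlgCl p :=
  rr m (up x.1) (up x.2) * rr l (up x.2) (up x.1)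

omit [FiniteDimensional ℚ_[p] K] in
theorem continuous_ff (m l : ℕ) : Continuous (ff m l : (Fin m → K) × (Fin l → K) → _) := by
  have h1 : ∀ i, Continuous fun x : (Fin m → K) × (Fin l → K) => (up x.1).coeff i := fun i =>
    (continuous_coeff i).comp continuous_fst
  have h2 : ∀ i, Continuous fun x : (Fin m → K) × (Fin l → K) => (up x.2).coeff i := fun i =>
    (continuous_coeff i).comp continuous_snd
  have e : (ff m l : (Fin m → K) × (Fin l → K) → _) =
      fun x => resultant (up x.1) (up x.2) m l * resultant (up x.2) (up x.1) l m := by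
    funext x
    simp only [ff, rr, up_natDegree]
  rw [e]
  exact (continuous_resultant h1 h2 m l).mul (continuous_resultant h2 h1 l m)

omit [FiniteDimensional ℚ_[p] K] in
theorem wt_mul {a m l : ℕ} {H : (PadicAlgCl p)[X]} {x : Fin m → K} {y : Fin l → K}
    {z : Fin (m + l) → K} (h : mp z = mp x * mp y) :
    wt a K (m + l) H z =
      ‖ff m l (x, y)‖ ^ (a * Module.finrank ℚ_[p] K) * (wt a K m H x * wt a K l H y) := by
  have h2 : up z = up x * up y := by
    rw [up_eq, up_eq, up_eq, h, Polynomial.map_mul]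
  rw [wt, h2, dd_mul (up_monic _) (up_monic _) (up_natDegree _) (up_natDegree _),
    rr_mul (up_monic _) (up_monic _) (up_natDegree _) (up_natDegree _), wt, wt, pow_mul]
  have h4 : ‖ff m l (x, y)‖ = ‖rr m (up x) (up y)‖ * ‖rr l (up y) (up x)‖ := norm_mul _ _
  simp only [norm_mul]
  rw [h4, ← mul_pow, ← mul_pow]
  congr 1
  ring

end Pool.Agent.H942.DP.KQ
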