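import Pool.Agent.H942.KQ.Mul

set_option autoImplicit false

/-! The points with `x_0 = 0` where the polynomial is not a power of `T`. -/

namespace Pool.Agent.H942.DP.KQ

open MeasureTheory Metric Set Polynomial Topology Filter

variable {p : ℕ} [hp : Fact p.Prime] {A : ℕ → ℕ → Prop}
  {K : IntermediateField ℚ_[p] (PadicAlgCl p)} [FiniteDimensional ℚ_[p] K]

omit [FiniteDimensional ℚ_[p] K] in
theorem kd_eq_zero {n e : ℕ} {κ : K} {x h : Fin n → K} (h1 : kd κ e x h = 0)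
    (h2 : ∀ i : Fin n, (i : ℕ) = 0 → h i = 0) : h = 0 := by
  funext i
  by_cases h0 : (i : ℕ) = 0
  · exact h2 i h0
  · have := congrFun h1 i
    rw [kd, if_neg h0] at this
    exact this

theorem lg_beta {a b e m l : ℕ} {P : ℤ[X]} (he : 2 ≤ e) (hm0 : 0 < m) (hl0 : 0 < l)
    (hm : GoodQ p A a b e P m) (hl : GoodQ p A a b e P l) {κ : K} (hκ : κ ≠ 0)
    {z0 : Fin (m + l) → K} (hz : z0 ∈ OK κ e (m + l)) (hz00 : z0 ⟨0, by omega⟩ = 0)
    {y1 : Fin l → K} (hy1 : mp (kx κ e z0) = X ^ m * mp y1) (hy10 : y1 ⟨0, hl0⟩ ≠ 0) :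
    LG p A (wq a b e K κ (m + l) (toOm p P)) z0 := by
  have : IsUltrametricDist ((Fin m → K) × (Fin l → K)) := ultrametric_prod _ _
  have hml : 0 < m + l := by omega
  -- the constants
  set κ2 : K := y1 ⟨0, hl0⟩ with hκ2
  set κ1 : K := κ / κ2 with hκ1
  have hκ1n : κ1 ≠ 0 := div_ne_zero hκ hy10
  have hκκ : κ1 * κ2 = κ := div_mul_cancel₀ κ hy10
  -- the base point
  set x0 : Fin m → K := 0 with hx0
  set y0 : Fin l → K := fun i => if (i : ℕ) = 0 then 1 else y1 i with hy0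
  have hx00 : x0 ⟨0, hm0⟩ = 0 := rfl
  have hy00 : y0 ⟨0, hl0⟩ = 1 := by rw [hy0]; simp
  have hkx0 : kx κ1 e x0 = 0 := by
    funext i
    rw [kx, hx0]
    split_ifs
    · rw [Pi.zero_apply, zero_pow (by omega), mul_zero]
    · rfl
  have hmpx : mp (kx κ1 e x0) = X ^ m := by
    rw [hkx0, mp_eq, lp]
    simp
  have hky0 : kx κ2 e y0 = y1 := by
    funext i
    by_cases h0 : (i : ℕ) = 0
    · rw [kx, if_pos h0, hy0]
      simp only [h0, if_true, one_pow, mul_one]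
      rw [hκ2]
      congr 1
      exact Fin.ext h0.symm
    · rw [kx, if_neg h0, hy0]
      simp only [h0, if_false]
  have hz01 : mp (kx κ e z0) = mp (kx κ1 e x0) * mp (kx κ2 e y0) := by
    rw [hmpx, hky0, hy1]
  have hint1 : kx κ2 e y0 ∈ closedBall (0 : Fin l → K) 1 :=
    int1_up_of_eq (OK_kx hz) (show mp (kx κ e z0) = mp (kx κ2 e y0) * mp (kx κ1 e x0) by
      rw [hz01, mul_comm]) (mp_monic _)
  have hx0O : x0 ∈ OK κ1 e m := by
    refine ⟨mem_closedBall_self zero_le_one, ?_⟩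
    rw [mem_preimage, hkx0]
    exact mem_closedBall_self zero_le_one
  have hy0O : y0 ∈ OK κ2 e l := by
    refine ⟨?_, hint1⟩
    rw [mem_closedBall, dist_zero_right, pi_norm_le_iff_of_nonneg zero_le_one] at hint1 ⊢
    intro i
    by_cases h0 : (i : ℕ) = 0
    · rw [hy0]
      simp only [h0, if_true, norm_one, le_refl]
    · have := hint1 i
      rwa [kx_of_ne _ _ _ h0] at this
  have hcop : IsCoprime (mp (kx κ1 e x0)) (mp (kx κ2 e y0)) := by
    rw [hmpx, hky0]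
    refine IsCoprime.pow_left ((irreducible_X.coprime_iff_not_dvd).mpr ?_)
    rw [X_dvd_iff]
    intro h
    have h1 := mp_coeff y1 ⟨0, hl0⟩
    exact hy10 (h1.symm.trans h)
  have hcO : IsCoprime (up (kx κ1 e x0)) (up (kx κ2 e y0)) := by
    rw [up_eq, up_eq]
    exact hcop.map (mapRingHom (algebraMap K (PadicAlgCl p)))
  -- the resultant
  set f : (Fin m → K) × (Fin l → K) → PadicAlgCl p :=
    fun x => ff m l (kx κ1 e x.1, kx κ2 e x.2) with hf
  have hfc : Continuous f := (continuous_ff m l).comp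
    (((continuous_kx κ1 e).comp continuous_fst).prodMk ((continuous_kx κ2 e).comp continuous_snd))
  have hf0 : f (x0, y0) ≠ 0 :=
    mul_ne_zero (rr_ne_zero (up_natDegree _) hcO) (rr_ne_zero (up_natDegree _) hcO.symm)
  have hf1 : ‖f (x0, y0)‖ ≤ 1 := by
    rw [hf]
    simp only [ff]
    rw [norm_mul]
    exact mul_le_one₀ (norm_rr_le (int1_up.mpr hx0O.2) (int1_up.mpr hy0O.2) m) (norm_nonneg _)
      (norm_rr_le (int1_up.mpr hy0O.2) (int1_up.mpr hx0O.2) l)
  set U : Set ((Fin m → K) × (Fin l → K)) :=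
    (OK κ1 e m ×ˢ OK κ2 e l) ∩ {x | ‖f x‖ = ‖f (x0, y0)‖} with hU
  have hUB : U ⊆ OK κ1 e m ×ˢ OK κ2 e l := inter_subset_left
  have hUn : U ∈ 𝓝 (x0, y0) := by
    refine inter_mem ?_ (norm_eventually hfc.continuousAt hf0)
    exact prod_mem_nhds ((isOpen_OK κ1 e m).mem_nhds hx0O) ((isOpen_OK κ2 e l).mem_nhds hy0O)
  -- the derivative
  set dx : ((Fin m → K) × (Fin l → K)) →L[ℚ_[p]] K :=
    (ContinuousLinearMap.proj (R := ℚ_[p]) (φ := fun _ => K) (⟨0, hm0⟩ : Fin m)) ∘L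
      ContinuousLinearMap.fst ℚ_[p] (Fin m → K) (Fin l → K) with hdx
  set dy : ((Fin m → K) × (Fin l → K)) →L[ℚ_[p]] K :=
    (ContinuousLinearMap.proj (R := ℚ_[p]) (φ := fun _ => K) (⟨0, hl0⟩ : Fin l)) ∘L
      ContinuousLinearMap.snd ℚ_[p] (Fin m → K) (Fin l → K) with hdy
  set v' : ((Fin m → K) × (Fin l → K)) →L[ℚ_[p]] (Fin (m + l) → K) :=
    ContinuousLinearMap.pi fun j => if (j : ℕ) = 0 then
      x0 ⟨0, hm0⟩ • dy + y0 ⟨0, hl0⟩ • dx else
      (mp (kx κ1 e x0)).eval ((j : ℕ) : K) •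
      (evL l ((j : ℕ) : K) ∘L kdL κ2 e y0 ∘L
        ContinuousLinearMap.snd ℚ_[p] (Fin m → K) (Fin l → K)) +
      (mp (kx κ2 e y0)).eval ((j : ℕ) : K) •
      (evL m ((j : ℕ) : K) ∘L kdL κ1 e x0 ∘L
        ContinuousLinearMap.fst ℚ_[p] (Fin m → K) (Fin l → K)) - 0 with hv'
  set v : (Fin m → K) × (Fin l → K) → Fin (m + l) → K := fun x j => if (j : ℕ) = 0 then
      x.1 ⟨0, hm0⟩ * x.2 ⟨0, hl0⟩ else
      (mp (kx κ1 e x.1)).eval ((j : ℕ) : K) * (mp (kx κ2 e x.2)).eval ((j : ℕ) : K) -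
        κ * (x.1 ⟨0, hm0⟩ * x.2 ⟨0, hl0⟩) ^ e with hv
  set t : Fin (m + l) → K := fun j => if (j : ℕ) = 0 then 0 else ((j : ℕ) : K) ^ (m + l) with ht
  have hsx : HasStrictFDerivAt (fun x : (Fin m → K) × (Fin l → K) => x.1 ⟨0, hm0⟩) dx (x0, y0) :=
    dx.hasStrictFDerivAt
  have hsy : HasStrictFDerivAt (fun x : (Fin m → K) × (Fin l → K) => x.2 ⟨0, hl0⟩) dy (x0, y0) :=
    dy.hasStrictFDerivAt
  have hsv : HasStrictFDerivAt v v' (x0, y0) := by
    rw [hasStrictFDerivAt_pi']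
    intro j
    have e1 : (ContinuousLinearMap.proj j).comp v' = if (j : ℕ) = 0 then
      x0 ⟨0, hm0⟩ • dy + y0 ⟨0, hl0⟩ • dx else
      (mp (kx κ1 e x0)).eval ((j : ℕ) : K) •
      (evL l ((j : ℕ) : K) ∘L kdL κ2 e y0 ∘L
        ContinuousLinearMap.snd ℚ_[p] (Fin m → K) (Fin l → K)) +
      (mp (kx κ2 e y0)).eval ((j : ℕ) : K) •
      (evL m ((j : ℕ) : K) ∘L kdL κ1 e x0 ∘L
        ContinuousLinearMap.fst ℚ_[p] (Fin m → K) (Fin l → K)) - 0 :=
      ContinuousLinearMap.ext fun h => rfl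
    rw [e1]
    by_cases h0 : (j : ℕ) = 0
    · simp only [hv, h0, if_true]
      exact hsx.mul hsy
    · simp only [hv, h0, if_false]
      have h1 : HasStrictFDerivAt (fun x : (Fin m → K) × (Fin l → K) =>
          (mp (kx κ1 e x.1)).eval ((j : ℕ) : K)) (evL m ((j : ℕ) : K) ∘L kdL κ1 e x0 ∘L
        ContinuousLinearMap.fst ℚ_[p] (Fin m → K) (Fin l → K)) (x0, y0) :=
        (strict_eval m ((j : ℕ) : K) (kx κ1 e x0)).comp (x0, y0) ((strict_kx κ1 e x0).comp (x0, y0)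
          (ContinuousLinearMap.fst ℚ_[p] (Fin m → K) (Fin l → K)).hasStrictFDerivAt)
      have h2 : HasStrictFDerivAt (fun x : (Fin m → K) × (Fin l → K) =>
          (mp (kx κ2 e x.2)).eval ((j : ℕ) : K)) (evL l ((j : ℕ) : K) ∘L kdL κ2 e y0 ∘L
        ContinuousLinearMap.snd ℚ_[p] (Fin m → K) (Fin l → K)) (x0, y0) :=
        (strict_eval l ((j : ℕ) : K) (kx κ2 e y0)).comp (x0, y0) ((strict_kx κ2 e y0).comp (x0, y0)
          (ContinuousLinearMap.snd ℚ_[p] (Fin m → K) (Fin l → K)).hasStrictFDerivAt)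
      have h3 : HasStrictFDerivAt (fun x : (Fin m → K) × (Fin l → K) =>
          κ * (x.1 ⟨0, hm0⟩ * x.2 ⟨0, hl0⟩) ^ e)
          (0 : ((Fin m → K) × (Fin l → K)) →L[ℚ_[p]] K) (x0, y0) := by
        have h4 := ((hsx.mul hsy).pow e).const_mul κ
        have h5 : (x0 ⟨0, hm0⟩ * y0 ⟨0, hl0⟩) ^ (e - 1) = 0 := by
          rw [hx00, zero_mul, zero_pow (by omega)]
        have h6 : κ • (e • (x0 ⟨0, hm0⟩ * y0 ⟨0, hl0⟩) ^ (e - 1)) •
            (x0 ⟨0, hm0⟩ • dy + y0 ⟨0, hl0⟩ • dx) =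
            (0 : ((Fin m → K) × (Fin l → K)) →L[ℚ_[p]] K) := by
          rw [h5, smul_zero]
          refine ContinuousLinearMap.ext fun h => ?_
          change κ * ((0 : K) * _) = 0
          rw [zero_mul, mul_zero]
        rw [← h6]
        exact h4
      exact (h1.mul h2).sub h3
  have hfr : Module.finrank ℚ_[p] ((Fin m → K) × (Fin l → K)) =
      Module.finrank ℚ_[p] (Fin (m + l) → K) := by
    rw [Module.finrank_prod]
    simp only [Module.finrank_pi_fintype, Finset.sum_const, Finset.card_univ, Fintype.card_fin,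
      smul_eq_mul]
    ring
  refine lg_gen (E := (Fin m → K) × (Fin l → K)) (vqE K (m + l)) t hsv ?_ hfr ?_
    (w' := fun x => wq a b e K κ1 m (toOm p P) x.1 * wq a b e K κ2 l (toOm p P) x.2)
    (κ := ‖f (x0, y0)‖ ^ (a * Module.finrank ℚ_[p] K)) (pow_pos (norm_pos_iff.mpr hf0) _)
    (pow_le_one₀ (norm_nonneg _) hf1) hUn (O := OK κ e (m + l)) ?_ (adm_wq a b e κ P)
    (((adm_wq a b e κ1 P).prod (adm_wq a b e κ2 P)).mono hUB) ?_
  · intro h hh
    have hj0 : y0 ⟨0, hl0⟩ * h.1 ⟨0, hm0⟩ = 0 := by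
      have h1 := congrFun hh ⟨0, hml⟩
      have h2 : v' h ⟨0, hml⟩ = x0 ⟨0, hm0⟩ * h.2 ⟨0, hl0⟩ + y0 ⟨0, hl0⟩ * h.1 ⟨0, hm0⟩ := rfl
      rw [h2, hx00, zero_mul, zero_add] at h1
      exact h1
    rw [hy00, one_mul] at hj0
    have hjn : ∀ j : Fin (m + l), (j : ℕ) ≠ 0 →
        (mp (kx κ1 e x0)).eval ((j : ℕ) : K) * (lp (kd κ2 e y0 h.2)).eval ((j : ℕ) : K) +
        (mp (kx κ2 e y0)).eval ((j : ℕ) : K) * (lp (kd κ1 e x0 h.1)).eval ((j : ℕ) : K) = 0 := by
      intro j hj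
      have h1 := congrFun hh j
      have h2 : v' h j = if (j : ℕ) = 0 then
          x0 ⟨0, hm0⟩ * h.2 ⟨0, hl0⟩ + y0 ⟨0, hl0⟩ * h.1 ⟨0, hm0⟩ else
          (mp (kx κ1 e x0)).eval ((j : ℕ) : K) * (lp (kdL κ2 e y0 h.2)).eval ((j : ℕ) : K) +
        (mp (kx κ2 e y0)).eval ((j : ℕ) : K) * (lp (kdL κ1 e x0 h.1)).eval ((j : ℕ) : K) - 0 := by
        rw [hv', ContinuousLinearMap.pi_apply]
        split_ifs
        · rfl
        · rfl
      rw [h2, if_neg hj, kdL_apply, kdL_apply, sub_zero] at h1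
      exact h1
    have hQ : mp (kx κ1 e x0) * lp (kd κ2 e y0 h.2) + mp (kx κ2 e y0) * lp (kd κ1 e x0 h.1) = 0 := by
      refine eq_of_values (n := m + l) ?_ fun j => ?_
      · rw [sub_zero]
        refine (degree_add_le _ _).trans_lt (max_lt (degree_mp_mul_lp _ _) ?_)
        rw [add_comm m l]
        exact degree_mp_mul_lp _ _
      · rw [eval_zero, eval_add, eval_mul, eval_mul]
        by_cases hj : (j : ℕ) = 0
        · have h3 : ((j : ℕ) : K) = 0 := by rw [hj]; simp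
          have h4 : (mp (kx κ1 e x0)).eval 0 = 0 := by
            rw [hmpx, eval_pow, eval_X, zero_pow hm0.ne']
          have h5 : (lp (kd κ1 e x0 h.1)).eval 0 = 0 := by
            rw [← coeff_zero_eq_eval_zero]
            have h6 := lp_coeff (kd κ1 e x0 h.1) ⟨0, hm0⟩
            rw [h6, kd, if_pos rfl, hj0, mul_zero]
          rw [h3, h4, h5, zero_mul, mul_zero, add_zero]
        · exact hjn j hj
    have h2 : mp (kx κ1 e x0) ∣ lp (kd κ1 e x0 h.1) := by
      refine hcop.dvd_of_dvd_mul_left ?_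
      exact ⟨-lp (kd κ2 e y0 h.2), by linear_combination hQ⟩
    have h3 : mp (kx κ2 e y0) ∣ lp (kd κ2 e y0 h.2) := by
      refine hcop.symm.dvd_of_dvd_mul_left ?_
      exact ⟨-lp (kd κ1 e x0 h.1), by linear_combination hQ⟩
    have h4 := eq_zero_of_dvd_lp h2
    have h5 := eq_zero_of_dvd_lp h3
    have h6 : h.1 = 0 := kd_eq_zero h4 fun i hi => by
      have : i = ⟨0, hm0⟩ := Fin.ext hi
      rw [this]
      exact hj0
    have h7 : h.2 = 0 := by
      apply kdL_injective (K := K) hl0 hy10 (by omega : 1 ≤ e) (x := y0) (by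
        rw [hy00]
        exact one_ne_zero)
      rw [map_zero]
      change kdL κ2 e y0 h.2 = 0
      rw [kdL_apply]
      exact h5
    exact Prod.ext h6 h7
  · funext j
    rw [Pi.add_apply, vqE_apply, ht, hv]
    by_cases h0 : (j : ℕ) = 0
    · simp only [h0, if_true, add_zero]
      rw [hx00, zero_mul]
      have : j = ⟨0, hml⟩ := Fin.ext h0
      rw [this]
      exact hz00
    · simp only [h0, if_false]
      have h1 := mp_kx_eval hml κ e z0 ((j : ℕ) : K)
      rw [hz01, eval_mul, c0_eq hml, hz00] at h1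
      rw [hx00, zero_mul, h1]
      ring
  · intro x hx y hy
    have hO1 := hx.1.1
    have hO2 := hx.1.2
    have hy0' : c0 y = c0 x.1 * c0 x.2 := by
      have h1 := congrFun hy ⟨0, hml⟩
      rw [Pi.add_apply, vqE_apply, ht, hv] at h1
      simp only [if_true, add_zero] at h1
      rw [c0_eq hml, c0_eq hm0, c0_eq hl0]
      exact h1
    have h1 : mp (kx κ e y) = mp (kx κ1 e x.1) * mp (kx κ2 e x.2) := by
      refine mp_of_values ((mp_monic _).mul (mp_monic _)) ?_ fun j => ?_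
      · rw [(mp_monic _).natDegree_mul (mp_monic _), mp_natDegree, mp_natDegree]
      · rw [eval_mul]
        by_cases h0 : (j : ℕ) = 0
        · have h3 : ((j : ℕ) : K) = 0 := by rw [h0]; simp
          rw [h3, eval_zero_eq, eval_zero_eq, eval_zero_eq, c0_kx hml, c0_kx hm0, c0_kx hl0, hy0',
            ← hκκ]
          ring
        · have h2 := congrFun hy j
          rw [Pi.add_apply, vqE_apply, ht, hv] at h2
          simp only [h0, if_false] at h2
          rw [mp_kx_eval hml, hy0', c0_eq hm0, c0_eq hl0]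
          linear_combination h2
    refine ⟨?_, ?_, ?_⟩
    · have h3 : ‖f x‖ = ‖f (x0, y0)‖ := hx.2
      rw [wq, wt_mul h1, ← h3, hy0', norm_mul, mul_pow, wq, wq]
      ring
    · have h4 : kx κ e y ∈ closedBall (0 : Fin (m + l) → K) 1 := by
        rw [← int1_up, up_eq, h1, Polynomial.map_mul, ← up_eq, ← up_eq]
        exact (int1_up.mpr hO1.2).mul (int1_up.mpr hO2.2)
      rw [mem_closedBall, dist_zero_right, pi_norm_le_iff_of_nonneg zero_le_one] at h4 ⊢
      intro i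
      by_cases h0 : (i : ℕ) = 0
      · have h5 : y i = c0 y := by
          rw [c0_eq hml]
          congr 1
          exact Fin.ext h0
        rw [h5, hy0', norm_mul]
        exact mul_le_one₀ (norm_c0_le hO1.1) (norm_nonneg _) (norm_c0_le hO2.1)
      · have := h4 i
        rwa [kx_of_ne _ _ _ h0] at this
    · rw [mem_preimage, ← int1_up, up_eq, h1, Polynomial.map_mul, ← up_eq, ← up_eq]
      exact (int1_up.mpr hO1.2).mul (int1_up.mpr hO2.2)
  · intro V hVU hV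
    have hVB := hVU.trans hUB
    refine rat_of_balls hp.out.one_lt hV (((adm_wq a b e κ1 P).prod (adm_wq a b e κ2 P)).mono hVB)
      fun x hx => ?_
    obtain ⟨r, hr, h1⟩ := hV.exists_ball hx
    refine ⟨r, hr, h1, ?_⟩
    have h2 := h1.trans hVB
    rw [← closedBall_prod_same] at h2 ⊢
    rw [prod_subset_prod_iff] at h2
    rcases h2 with h2 | h2 | h2
    · obtain ⟨c, hc⟩ := exists_ser_prod (E := Fin m → K) (F := Fin l → K) hp.out.one_lt
      rw [hc _ _ _ _ (ko_ball _ hr) (ko_ball _ hr) ((adm_wq a b e κ1 P).mono h2.1)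
        ((adm_wq a b e κ2 P).mono h2.2)]
      exact (rat_C c).mul ((hm K κ1 hκ1n _ h2.1 (ko_ball _ hr)).mul
        (hl K κ2 hy10 _ h2.2 (ko_ball _ hr)))
    · exact absurd h2 (nonempty_closedBall.mpr hr.le).ne_empty
    · exact absurd h2 (nonempty_closedBall.mpr hr.le).ne_empty

end Pool.Agent.H942.DP.KQ
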