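import Pool.Agent.H942.KQ.Prod

set_option autoImplicit false

/-! The homothety. -/

namespace Pool.Agent.H942.DP.KQ

open MeasureTheory Metric Set Polynomial Topology Filter

variable {p : ℕ} [hp : Fact p.Prime] {A : ℕ → ℕ → Prop}
  {K : IntermediateField ℚ_[p] (PadicAlgCl p)} {n : ℕ}

/-- The exponents of the homothety. -/
def se (n e k : ℕ) (i : Fin n) : ℕ := if (i : ℕ) = 0 then k * n else k * (e * (n - i))

theorem sum_se (n e k : ℕ) : ∑ i : Fin n, se n e k i = k * ∑ i : Fin n, se n e 1 i := by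
  rw [Finset.mul_sum]
  refine Finset.sum_congr rfl fun i _ => ?_
  simp only [se]
  split_ifs <;> ring

theorem le_se {n e : ℕ} (he : 1 ≤ e) (k : ℕ) (i : Fin n) : k ≤ se n e k i := by
  have hi := i.2
  rw [se]
  split_ifs
  · exact Nat.le_mul_of_pos_right k (by omega)
  · exact Nat.le_mul_of_pos_right k (Nat.mul_pos he (by omega))

/-- The homothety. -/
noncomputable def scq (K : IntermediateField ℚ_[p] (PadicAlgCl p)) (n e k : ℕ) :
    (Fin n → K) ≃+ (Fin n → K) where
  toFun x i := (p : K) ^ se n e k i * x i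
  invFun x i := ((p : K) ^ se n e k i)⁻¹ * x i
  left_inv x := by
    funext i
    simp only [← mul_assoc, inv_mul_cancel₀ (pp_ne_zero K _), one_mul]
  right_inv x := by
    funext i
    simp only [← mul_assoc, mul_inv_cancel₀ (pp_ne_zero K _), one_mul]
  map_add' x y := by
    funext i
    simp only [Pi.add_apply]
    ring

theorem scq_apply (e k : ℕ) (x : Fin n → K) (i : Fin n) :
    scq K n e k x i = (p : K) ^ se n e k i * x i := rfl

theorem kx_scq (κ : K) (e k : ℕ) (x : Fin n → K) :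
    kx κ e (scq K n e k x) = sc K n (k * e) (kx κ e x) := by
  funext i
  rw [sc_apply, kx, kx, scq_apply, se]
  split_ifs with h
  · rw [mul_pow, ← pow_mul, h, Nat.sub_zero]
    have : k * n * e = k * e * n := by ring
    rw [this]
    ring
  · rw [← mul_assoc k]

theorem c0_scq (hn : 0 < n) (e k : ℕ) (x : Fin n → K) :
    c0 (scq K n e k x) = (p : K) ^ (k * n) * c0 x := by
  rw [c0_eq hn, c0_eq hn, scq_apply, se, if_pos rfl]

theorem continuous_scq (e k : ℕ) : Continuous (scq K n e k) := by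
  refine continuous_pi fun i => ?_
  exact continuous_const.mul (continuous_apply i)

theorem continuous_scq_symm (e k : ℕ) : Continuous (scq K n e k).symm := by
  refine continuous_pi fun i => ?_
  exact continuous_const.mul (continuous_apply i)

theorem scq_image (e k : ℕ) : scq K n e k '' closedBall 0 1 =
    {x : Fin n → K | ∀ i, ‖x i‖ ≤ ((p : ℝ) ^ se n e k i)⁻¹} := by
  have hp0 : (0 : ℝ) < p := by exact_mod_cast hp.out.pos
  ext y
  constructor
  · rintro ⟨x, hx, rfl⟩ i
    rw [mem_closedBall, dist_zero_right] at hx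
    rw [scq_apply, norm_mul, norm_pp]
    exact mul_le_of_le_one_right (by positivity) ((norm_le_pi_norm x i).trans hx)
  · intro hy
    refine ⟨(scq K n e k).symm y, ?_, (scq K n e k).apply_symm_apply y⟩
    rw [mem_closedBall, dist_zero_right, pi_norm_le_iff_of_nonneg zero_le_one]
    intro i
    change ‖((p : K) ^ se n e k i)⁻¹ * y i‖ ≤ 1
    rw [norm_mul, norm_inv, norm_pp, inv_inv]
    have := hy i
    rwa [← le_inv_mul_iff₀ (by positivity), mul_one]

/-- The homothety of the integral points. -/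
def boxq (κ : K) (e n k : ℕ) : Set (Fin n → K) := scq K n e k '' OK κ e n

theorem boxq_sub_OK (κ : K) (e k : ℕ) : boxq κ e n k ⊆ OK κ e n := by
  have hp1 : (1 : ℝ) ≤ p := by exact_mod_cast hp.out.one_lt.le
  rintro _ ⟨x, hx, rfl⟩
  refine ⟨?_, ?_⟩
  · have h1 := hx.1
    rw [mem_closedBall, dist_zero_right] at h1
    rw [mem_closedBall, dist_zero_right, pi_norm_le_iff_of_nonneg zero_le_one]
    intro i
    rw [scq_apply, norm_mul, norm_pp]
    exact mul_le_one₀ (inv_le_one_of_one_le₀ (one_le_pow₀ hp1)) (norm_nonneg _)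
      ((norm_le_pi_norm x i).trans h1)
  · rw [mem_preimage, kx_scq]
    refine box_sub (k * e) ?_
    rw [← sc_image]
    exact mem_image_of_mem _ hx.2

theorem boxq_sub_ball {κ : K} {e : ℕ} (he : 1 ≤ e) (k : ℕ) :
    boxq κ e n k ⊆ closedBall 0 (((p : ℝ) ^ k)⁻¹) := by
  have hp1 : (1 : ℝ) ≤ p := by exact_mod_cast hp.out.one_lt.le
  rintro _ ⟨x, hx, rfl⟩
  have h1 := hx.1
  rw [mem_closedBall, dist_zero_right] at h1
  rw [mem_closedBall, dist_zero_right, pi_norm_le_iff_of_nonneg (by positivity)]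
  intro i
  rw [scq_apply, norm_mul, norm_pp]
  calc ((p : ℝ) ^ se n e k i)⁻¹ * ‖x i‖ ≤ ((p : ℝ) ^ se n e k i)⁻¹ * 1 :=
        mul_le_mul_of_nonneg_left ((norm_le_pi_norm x i).trans h1) (by positivity)
    _ ≤ ((p : ℝ) ^ k)⁻¹ := by
        rw [mul_one]
        exact inv_anti₀ (by positivity) (pow_le_pow_right₀ hp1 (le_se he k i))

theorem zero_mem_OK (κ : K) {e : ℕ} (he : 1 ≤ e) : (0 : Fin n → K) ∈ OK κ e n := by
  refine ⟨mem_closedBall_self zero_le_one, ?_⟩
  have h1 : kx κ e (0 : Fin n → K) = 0 := by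
    funext i
    rw [kx]
    split_ifs
    · rw [Pi.zero_apply, zero_pow (by omega), mul_zero]
    · rfl
  rw [mem_preimage, h1]
  exact mem_closedBall_self zero_le_one

theorem zero_mem_boxq (κ : K) {e : ℕ} (he : 1 ≤ e) (k : ℕ) : (0 : Fin n → K) ∈ boxq κ e n k :=
  ⟨0, zero_mem_OK κ he, map_zero _⟩

/-- The exponent of the homothety. -/
noncomputable def NQ (K : IntermediateField ℚ_[p] (PadicAlgCl p)) (a b e n : ℕ) : ℕ :=
  (e * (a * (n * (n - 1))) + n * b) * Module.finrank ℚ_[p] K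

theorem wq_scq (hn : 0 < n) (a b e k : ℕ) (κ : K) (x : Fin n → K) :
    wq a b e K κ n (toOm p (X ^ 0)) (scq K n e k x) =
      ((p : ℝ) ^ (k * NQ K a b e n))⁻¹ * wq a b e K κ n (toOm p (X ^ 0)) x := by
  rw [wq, wq, kx_scq, wt_sc, c0_scq hn, norm_mul, norm_pp, mul_pow, NQ, NN]
  have e1 : (((p : ℝ) ^ (k * n))⁻¹) ^ (b * Module.finrank ℚ_[p] K) =
      ((p : ℝ) ^ (k * n * (b * Module.finrank ℚ_[p] K)))⁻¹ := by
    rw [inv_pow, ← pow_mul]
  rw [e1]
  have e2 : (p : ℝ) ^ (k * ((e * (a * (n * (n - 1))) + n * b) * Module.finrank ℚ_[p] K)) =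
      (p : ℝ) ^ (k * e * ((a * (n * (n - 1)) + n * 0) * Module.finrank ℚ_[p] K)) *
        (p : ℝ) ^ (k * n * (b * Module.finrank ℚ_[p] K)) := by
    rw [← pow_add]
    congr 1
    ring
  rw [e2, mul_inv]
  ring

variable [FiniteDimensional ℚ_[p] K]

omit [FiniteDimensional ℚ_[p] K] in
theorem ko_scq (e k : ℕ) {V : Set (Fin n → K)} (hV : KO V) : KO (scq K n e k '' V) := by
  let T : (Fin n → K) ≃ₜ (Fin n → K) :=
    { (scq K n e k).toEquiv with
      continuous_toFun := continuous_scq e k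
      continuous_invFun := continuous_scq_symm e k }
  exact ⟨hV.1.image (continuous_scq e k), T.isOpenMap _ hV.2⟩

theorem ko_boxq (κ : K) (e k : ℕ) : KO (boxq κ e n k) := ko_scq e k (ko_OK κ e n)

theorem vol_scq (e k : ℕ) (V : Set (Fin n → K)) :
    vol (scq K n e k '' V) =
      ((p : ℝ) ^ (Module.finrank ℚ_[p] K * ∑ i : Fin n, se n e k i))⁻¹ * vol V := by
  obtain ⟨d, hd0, hd⟩ := exists_vol_image (E := Fin n → K) (F := Fin n → K) (scq K n e k)
    (continuous_scq e k) (continuous_scq_symm e k)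
  have h1 := hd (closedBall 0 1)
  rw [scq_image] at h1
  have h2 : 0 < vol (closedBall (0 : Fin n → K) 1) :=
    vol_pos (ko_ball _ one_pos) ⟨0, mem_closedBall_self zero_le_one⟩
  have h3 := vol_box (p := p) (K := K) (fun i : Fin n => se n e k i)
  rw [h3] at h1
  rw [hd, mul_right_cancel₀ h2.ne' h1]

theorem ser_boxq (hn : 0 < n) (a b e k : ℕ) (κ : K) :
    ser p (wq a b e K κ n (toOm p (X ^ 0))) (boxq κ e n k) =
      PowerSeries.C (((p : ℝ) ^ (Module.finrank ℚ_[p] K * ∑ i : Fin n, se n e k i))⁻¹) *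
        (PowerSeries.X ^ (k * NQ K a b e n) *
          ser p (wq a b e K κ n (toOm p (X ^ 0))) (OK κ e n)) := by
  have h1 := adm_wq (n := n) (K := K) a b e κ (X ^ 0)
  rw [boxq, ser_image hp.out.one_lt (ko_OK κ e n) (h1.pow_mul (k * NQ K a b e n))
    (fun W _ _ => vol_scq e k W) (fun x _ => wq_scq hn a b e k κ x),
    ser_pow_mul hp.out.one_lt h1]

theorem rat_boxq (hn : 0 < n) (a b e k : ℕ) (κ : K)
    (h : Rat p A (ser p (wq a b e K κ n (toOm p (X ^ 0))) (OK κ e n))) :
    Rat p A (ser p (wq a b e K κ n (toOm p (X ^ 0))) (boxq κ e n k)) := by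
  rw [ser_boxq hn]
  exact (rat_C _).mul ((rat_X_pow _).mul h)

end Pool.Agent.H942.DP.KQ
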